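import Mathlib
import Pool.Agent.Lib.MP_11349d_lc.P1.RP
import Pool.Agent.Lib.MP_11349d_lc.V.Kit
import Pool.Agent.Lib.JO.Ifc

/-!
# Part II, module Frc (est. 140 lines): forcing with the conditions of a preorder

`RP P`: the regular open algebra, `RP.j p`: the element generated by `p` (`MP_11349d_lc/P1/RP.lean`: `j_mono`, `j_le_iff`, `self_mem_j`, `mem_j`, `exists_j_le`,
`j_ne_bot`, `j_inf_j_ne_bot`). `Fc`, `Df0`, `Df1`, `fc_dense`, `fc_decide`, `fc_all_mem`, `fc_ex_mem`: `MP_11349d_lc/V/Kit.lean`.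

PROOFS. `Fc.j_mono`: `Fc.mono`, `RP.j_mono`. `fc_j_dense`: `fc_dense`: let `q ≤ j p`, `q ≠ ⊥`; `exists_j_le` gives `j α ≤ q`, so `α ∈ (j p).s` (`j_le_iff`), by `mem_j` there is `δ ≤ α`,
`δ ≤ p`; the hypothesis gives `r ≤ δ`; `j r ≤ j δ ≤ j α ≤ q`, `j_ne_bot`. `fc_j_iff_dense`: special case for regular sets.
`fc_j_decide`: `fc_decide` for `j p` gives `q ≤ j p`, then `α` with `j α ≤ q`, `δ ≤ α`, `δ ≤ p` as before. `j_le_dense`: `le_of_dense` in the same way.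
`fc_j_imp`: `fc_j_dense` for `Φ → Ψ` (`Df0.imp`): given `q ≤ p`, decide `Φ` (`fc_j_decide`).
`fc_j_exm`: `fc_ex_mem` gives `r ≤ j p`, `r ≠ ⊥` and `i`; take `j α ≤ r` and `δ ≤ α`, `δ ≤ p`.
`fc_j_allm`: `fc_all_mem`: for the generator `i` show `Fc (j p) (U.S (x.val i) → Φ ..)` with `fc_j_imp` (`Df0.of_S`, `Df1.df0`, `fc_iff`).
`fc_j_all_chk`: `fc_all_chk`.
`exists_all`: `r 0 := p`, `r (k+1) ≤ r k` with `Q k (r (k+1))` (`Nat.rec` with choice, `antitone_nat_of_succ_le`); take `lim r`.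
`fc_j_below`: `fc_dense` (for `q ≤ b`, `q ≠ ⊥`, take `j α ≤ q`). `fc_j_top`: `fc_j_below` for `b = ⊤` (`U.top'`). `fc_j_const`: `eq_bot_of_fc`, `j_ne_bot`; an assertion `a` (not depending on `U`) which is true in all models `U.Mod` with `U.S (j p)` is true.
-/

set_option autoImplicit false

namespace Pool.Agent.JO

open Pool.Agent.BPF Pool.Agent.Lib.BVM BSet

variable {P : Type} [Preorder P]

/-- an element of the algebra which is not disjoint from `j p` contains a condition below `p` -/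
private theorem exists_below {p : P} {q : RP P} (hq : q ≤ RP.j p) (hq0 : q ≠ ⊥) : ∃ δ ≤ p, RP.j δ ≤ q := by
  obtain ⟨α, hα⟩ := RP.exists_j_le hq0
  have h1 : α ∈ (RP.j p).s := RP.j_le_iff.1 (hα.trans hq)
  obtain ⟨δ, hδ, hδ'⟩ := RP.mem_j.1 h1 α le_rfl
  exact ⟨δ, hδ', (RP.j_mono hδ).trans hα⟩

theorem fc_j_mono {p q : P} {Φ : Ult (RP P) → Prop} (h : Fc (RP.j p) Φ) (hq : q ≤ p) : Fc (RP.j q) Φ :=
  h.mono (RP.j_mono hq)

theorem fc_j_dense {p : P} {Φ : Ult (RP P) → Prop} (hΦ : Df0 Φ) (h : ∀ q ≤ p, ∃ r ≤ q, Fc (RP.j r) Φ) :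
    Fc (RP.j p) Φ := by
  refine fc_dense hΦ fun q hq hq0 => ?_
  obtain ⟨δ, hδ, hδq⟩ := exists_below hq hq0
  obtain ⟨r, hr, hr'⟩ := h δ hδ
  exact ⟨RP.j r, (RP.j_mono hr).trans hδq, RP.j_ne_bot r, hr'⟩

theorem j_le_dense {p : P} {b : RP P} (h : ∀ q ≤ p, ∃ r ≤ q, RP.j r ≤ b) : RP.j p ≤ b := by
  refine le_of_dense fun q hq hq0 => ?_
  obtain ⟨δ, hδ, hδq⟩ := exists_below hq hq0
  obtain ⟨r, hr, hr'⟩ := h δ hδ
  exact ⟨RP.j r, (RP.j_mono hr).trans hδq, RP.j_ne_bot r, hr'⟩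

theorem fc_j_decide (p : P) {Φ : Ult (RP P) → Prop} (hΦ : Df0 Φ) :
    ∃ q ≤ p, Fc (RP.j q) Φ ∨ Fc (RP.j q) (fun U => ¬ Φ U) := by
  obtain ⟨q, hq, hq0, hq'⟩ := fc_decide (RP.j_ne_bot p) hΦ
  obtain ⟨δ, hδ, hδq⟩ := exists_below hq hq0
  exact ⟨δ, hδ, hq'.imp (fun h => h.mono hδq) (fun h => h.mono hδq)⟩

theorem fc_j_imp {p : P} {Φ Ψ : Ult (RP P) → Prop} (hΦ : Df0 Φ) (hΨ : Df0 Ψ)
    (h : ∀ q ≤ p, Fc (RP.j q) Φ → Fc (RP.j q) Ψ) : Fc (RP.j p) (fun U => Φ U → Ψ U) := by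
  refine fc_j_dense (Df0.imp hΦ hΨ) fun q hq => ?_
  obtain ⟨r, hr, hr'⟩ := fc_j_decide q hΦ
  refine ⟨r, hr, ?_⟩
  rcases hr' with hr' | hr'
  · exact fun U hU _ => h r (hr.trans hq) hr' U hU
  · exact fun U hU hc => absurd hc (hr' U hU)

theorem fc_j_exm {p : P} {Φ : (U : Ult (RP P)) → U.Mod → Prop} (hΦ : Df1 Φ) (x : BSet (RP P))
    (h : Fc (RP.j p) (fun U => ∃ m, U.E m (U.cls x) ∧ Φ U m)) :
    ∃ q ≤ p, ∃ i : x.Idx, RP.j q ≤ x.val i ∧ Fc (RP.j q) (fun U => Φ U (U.cls (x.fn i))) := by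
  obtain ⟨r, hr, hr0, i, hi, hi'⟩ := fc_ex_mem (RP.j_ne_bot p) hΦ x h
  obtain ⟨δ, hδ, hδr⟩ := exists_below hr hr0
  exact ⟨δ, hδ, i, hδr.trans hi, hi'.mono hδr⟩

theorem fc_j_allm {p : P} {Φ : (U : Ult (RP P)) → U.Mod → Prop} (hΦ : Df1 Φ) (x : BSet (RP P))
    (h : ∀ i : x.Idx, ∀ q ≤ p, RP.j q ≤ x.val i → Fc (RP.j q) (fun U => Φ U (U.cls (x.fn i)))) :
    Fc (RP.j p) (fun U => ∀ m, U.E m (U.cls x) → Φ U m) := by
  refine fc_all_mem hΦ x fun i => ?_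
  refine fc_j_imp (Df0.of_S (x.val i)) (hΦ.df0 (x.fn i)) fun q hq hi => ?_
  exact h i q hq (fc_iff.1 hi)

/-- countably many dense sets -/
theorem exists_all {S : P → Submodule ℝ (BoundedContinuousFunction ℕ ℝ)} {lim : (ℕ → P) → P} (hS : IsSys S lim)
    {p : P} {Q : ℕ → P → Prop} (hQ : ∀ k q q', q' ≤ q → Q k q → Q k q')
    (h : ∀ k, ∀ q ≤ p, ∃ r ≤ q, Q k r) : ∃ q ≤ p, ∀ k, Q k q := by
  classical
  choose! f hf using h
  let r : ℕ → {q : P // q ≤ p} := fun n => Nat.rec ⟨p, le_rfl⟩ (fun k q => ⟨f k q.1, (hf k q.1 q.2).1.trans q.2⟩) n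
  have hr : ∀ k, (r (k + 1)).1 = f k (r k).1 := fun k => rfl
  have hanti : Antitone (fun k => (r k).1) := antitone_nat_of_succ_le fun k => by
    rw [hr]
    exact (hf k (r k).1 (r k).2).1
  refine ⟨lim (fun k => (r k).1), hS.lim_le _ hanti 0, fun k => ?_⟩
  refine hQ k _ _ (hS.lim_le _ hanti (k + 1)) ?_
  rw [hr]
  exact (hf k (r k).1 (r k).2).2

/-- a sequence of conditions, with its limit -/
theorem exists_lim {S : P → Submodule ℝ (BoundedContinuousFunction ℕ ℝ)} {lim : (ℕ → P) → P} (hS : IsSys S lim)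
    {p : P} {Q : P → P → Prop} (h : ∀ q ≤ p, ∃ r ≤ q, Q q r) :
    ∃ r : ℕ → P, r 0 = p ∧ Antitone r ∧ ∀ k, Q (r k) (r (k + 1)) := by
  classical
  choose! f hf using h
  let r : ℕ → {q : P // q ≤ p} := fun n => Nat.rec ⟨p, le_rfl⟩ (fun _ q => ⟨f q.1, (hf q.1 q.2).1.trans q.2⟩) n
  have hr : ∀ k, (r (k + 1)).1 = f (r k).1 := fun k => rfl
  refine ⟨fun k => (r k).1, rfl, antitone_nat_of_succ_le fun k => ?_, fun k => ?_⟩
  · rw [hr]
    exact (hf (r k).1 (r k).2).1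
  · show Q (r k).1 (r (k + 1)).1
    rw [hr]
    exact (hf (r k).1 (r k).2).2

/-- a statement with the Boolean value `b` implies `Φ` in all the models, if `Φ` is forced by densely many conditions below `b` -/
private theorem fc_j_below' {b : RP P} {Φ : Ult (RP P) → Prop} (hΦ : Df0 Φ)
    (h : ∀ p : P, RP.j p ≤ b → ∃ q ≤ p, Fc (RP.j q) Φ) : Fc b Φ := by
  refine fc_dense hΦ fun q hq hq0 => ?_
  obtain ⟨α, hα⟩ := RP.exists_j_le hq0
  obtain ⟨r, hr, hr'⟩ := h α (hα.trans hq)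
  exact ⟨RP.j r, (RP.j_mono hr).trans hα, RP.j_ne_bot r, hr'⟩

/-- a statement which is forced by densely many conditions holds in all the models -/
theorem fc_j_top {Φ : Ult (RP P) → Prop} (hΦ : Df0 Φ) (h : ∀ p : P, ∃ q ≤ p, Fc (RP.j q) Φ) (U : Ult (RP P)) :
    Φ U :=
  fc_j_below' (b := ⊤) hΦ (fun p _ => h p) U U.top'

/-- a statement with the Boolean value `b` implies `Φ` in all the models, if `Φ` is forced by densely many conditions below `b` -/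
theorem fc_j_below {b : RP P} {Φ : Ult (RP P) → Prop} (hΦ : Df0 Φ)
    (h : ∀ p : P, RP.j p ≤ b → ∃ q ≤ p, Fc (RP.j q) Φ) : Fc b Φ :=
  fc_j_below' hΦ h

theorem fc_j_const {p : P} {a : Prop} (h : Fc (RP.j p) (fun _ => a)) : a := by
  by_contra hc
  exact RP.j_ne_bot p (eq_bot_of_fc fun U hU => hc (h U hU))

end Pool.Agent.JO
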