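import Mathlib
import Pool.Agent.Lib.JO.Stmt
import Pool.Agent.Lib.MP_11349d_lc.V.Kit

/-!
# Part II: the predicates of the statement as formulas
-/

set_option autoImplicit false

namespace Pool.Agent.JO

open Pool.Agent.BPF Pool.Agent.Lib.BVM

/-- shift of the indices -/
def Rl.sh (R : Rl ℕ) (k : ℕ) : Rl ℕ := ⟨R.w + k, R.r + k, R.a + k, R.m + k, R.l + k, R.o + k, R.i + k⟩

/-- evaluation -/
def Rl.ev {M : Type*} (R : Rl ℕ) (v : ℕ → M) : Rl M := ⟨v R.w, v R.r, v R.a, v R.m, v R.l, v R.o, v R.i⟩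

def fIsFn (f x y : ℕ) : Fm :=
  .and (.all (.imp (.mem 0 (f + 1)) (.ex (.ex (.and (.mem 1 (x + 3)) (.and (.mem 0 (y + 3)) (fPair 2 1 0)))))))
    (.all (.imp (.mem 0 (x + 1)) (.ex (.and (.mem 0 (y + 2)) (.all (.iff (fRel (f + 3) 2 0) (.eq 0 1)))))))

def fOp (g u v z : ℕ) : Fm := .ex (.and (fPair 0 (u + 1) (v + 1)) (fRel (g + 1) 0 (z + 1)))

def fPosR (R : Rl ℕ) (e : ℕ) : Fm := .and (.mem e R.r) (.and (fRel R.l R.o e) (.neg (.eq e R.o)))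

def fAbsLe (R : Rl ℕ) (u s : ℕ) : Fm :=
  .and (fRel R.l u s) (.ex (.and (fOp (R.a + 1) (u + 1) (s + 1) 0) (fRel (R.l + 1) (R.o + 1) 0)))

def fBd (R : Rl ℕ) (f s : ℕ) : Fm :=
  .all (.all (.imp (.mem 1 (R.w + 2)) (.imp (fRel (f + 2) 1 0) (fAbsLe (R.sh 2) 0 (s + 2)))))

def fSumF (R : Rl ℕ) (f g h : ℕ) : Fm :=
  .all (.all (.all (.all (.imp (.mem 3 (R.w + 4)) (.imp (fRel (f + 4) 3 2) (.imp (fRel (g + 4) 3 1)
    (.imp (fRel (h + 4) 3 0) (fOp (R.a + 4) 2 1 0))))))))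

def fSmulF (R : Rl ℕ) (c f h : ℕ) : Fm :=
  .all (.all (.all (.imp (.mem 2 (R.w + 3)) (.imp (fRel (f + 3) 2 1) (.imp (fRel (h + 3) 2 0)
    (fOp (R.m + 3) (c + 3) 1 0))))))

def fDistLe (R : Rl ℕ) (f g s : ℕ) : Fm :=
  .all (.all (.all (.all (.imp (.mem 3 (R.w + 4)) (.imp (fRel (f + 4) 3 2) (.imp (fRel (g + 4) 3 1)
    (.imp (.mem 0 (R.r + 4)) (.imp (fOp (R.a + 4) 1 0 2) (fAbsLe (R.sh 4) 0 (s + 4))))))))))

def fNadd (R : Rl ℕ) (x n : ℕ) : Fm :=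
  .all (.all (.all (.imp (.mem 2 (x + 3)) (.imp (.mem 1 (x + 3)) (.imp (.mem 0 (x + 3))
    (.imp (fSumF (R.sh 3) 2 1 0) (.all (.all (.all (.imp (fRel (n + 6) 5 2) (.imp (fRel (n + 6) 4 1)
      (.imp (fRel (n + 6) 3 0) (.ex (.and (fOp (R.a + 7) 3 2 0) (fRel (R.l + 7) 1 0))))))))))))))) 

def fNsmul (R : Rl ℕ) (x n : ℕ) : Fm :=
  .all (.all (.all (.imp (.mem 2 (R.r + 3)) (.imp (.mem 1 (x + 3)) (.imp (.mem 0 (x + 3))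
    (.imp (fSmulF (R.sh 3) 2 1 0) (.all (.all (.imp (fRel (n + 5) 3 1) (.imp (fRel (n + 5) 2 0)
      (.and (.imp (fRel (R.l + 5) (R.o + 5) 4) (fOp (R.m + 5) 4 1 0))
        (.all (.imp (.mem 0 (R.r + 6)) (.imp (fOp (R.a + 6) 5 0 (R.o + 6))
          (.imp (fRel (R.l + 6) (R.o + 6) 0) (fOp (R.m + 6) 0 2 1))))))))))))))))

/-- the constant `k` shows that the norm `n` is equivalent to the norm of `ℓ_∞` -/
def EquivB {M : Type*} (E : M → M → Prop) (R : Rl M) (x n k : M) : Prop :=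
  ∀ f u, E f x → Rel E n f u →
    (∀ t, Op E R.m k u t → Bd E R f t) ∧
      ∀ s t, E s R.r → Bd E R f s → Op E R.m k s t → Rel E R.l u t

def fEquivB (R : Rl ℕ) (x n k : ℕ) : Fm :=
  .all (.all (.imp (.mem 1 (x + 2)) (.imp (fRel (n + 2) 1 0)
    (.and (.all (.imp (fOp (R.m + 3) (k + 3) 1 0) (fBd (R.sh 3) 2 0)))
      (.all (.all (.imp (.mem 1 (R.r + 4)) (.imp (fBd (R.sh 4) 3 1) (.imp (fOp (R.m + 4) (k + 4) 1 0)
        (fRel (R.l + 4) 2 0))))))))))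

def fEqNorm (R : Rl ℕ) (x n : ℕ) : Fm :=
  .and (fIsFn n x R.r) (.and (fNadd R x n) (.and (fNsmul R x n)
    (.ex (.and (fPosR (R.sh 1) 0) (fEquivB (R.sh 1) (x + 1) (n + 1) 0)))))

def fLinj (x t : ℕ) : Fm :=
  .all (.all (.all (.imp (.mem 2 (x + 3)) (.imp (.mem 1 (x + 3)) (.imp (fRel (t + 3) 2 0)
    (.imp (fRel (t + 3) 1 0) (.eq 2 1)))))))

def fLsurj (x t : ℕ) : Fm := .all (.imp (.mem 0 (x + 1)) (.ex (.and (.mem 0 (x + 2)) (fRel (t + 2) 0 1))))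

def fLadd (R : Rl ℕ) (x t : ℕ) : Fm :=
  .all (.all (.all (.imp (.mem 2 (x + 3)) (.imp (.mem 1 (x + 3)) (.imp (.mem 0 (x + 3))
    (.imp (fSumF (R.sh 3) 2 1 0) (.all (.all (.all (.imp (fRel (t + 6) 5 2) (.imp (fRel (t + 6) 4 1)
      (.imp (fRel (t + 6) 3 0) (fSumF (R.sh 6) 2 1 0)))))))))))))

def fLsmul (R : Rl ℕ) (x t : ℕ) : Fm :=
  .all (.all (.all (.imp (.mem 2 (R.r + 3)) (.imp (.mem 1 (x + 3)) (.imp (.mem 0 (x + 3))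
    (.imp (fSmulF (R.sh 3) 2 1 0) (.all (.all (.imp (fRel (t + 5) 3 1) (.imp (fRel (t + 5) 2 0)
      (fSmulF (R.sh 5) 4 1 0)))))))))))

def fLinBij (R : Rl ℕ) (x t : ℕ) : Fm :=
  .and (fIsFn t x x) (.and (fLinj x t) (.and (fLsurj x t) (.and (fLadd R x t) (fLsmul R x t))))

/-- `n(f) ≤ n'(t(f)) ≤ k n(f)` for all `f ∈ x` -/
def Ineq {M : Type*} (E : M → M → Prop) (R : Rl M) (x n n' k t : M) : Prop :=
  ∀ f g u v s, E f x → Rel E t f g → Rel E n f u → Rel E n' g v →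
    Op E R.m k u s → Rel E R.l u v ∧ Rel E R.l v s

def fIneq (R : Rl ℕ) (x n n' k t : ℕ) : Fm :=
  .all (.all (.all (.all (.all (.imp (.mem 4 (x + 5)) (.imp (fRel (t + 5) 4 3) (.imp (fRel (n + 5) 4 2)
    (.imp (fRel (n' + 5) 3 1) (.imp (fOp (R.m + 5) (k + 5) 2 0)
      (.and (fRel (R.l + 5) 2 1) (fRel (R.l + 5) 1 0)))))))))))

section
variable {M : Type*} (E : M → M → Prop)

theorem sat_fRel (f x y : ℕ) (v : ℕ → M) : sat E (fRel f x y) v ↔ Rel E (v f) (v x) (v y) := Iff.rfl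

theorem sat_fIsFn (f x y : ℕ) (v : ℕ → M) : sat E (fIsFn f x y) v ↔ IsFn E (v f) (v x) (v y) := by
  unfold IsFn
  simp only [fIsFn, sat]
  rfl

theorem sat_fOp (g x y z : ℕ) (v : ℕ → M) : sat E (fOp g x y z) v ↔ Op E (v g) (v x) (v y) (v z) := Iff.rfl

theorem sat_fPosR (R : Rl ℕ) (e : ℕ) (v : ℕ → M) : sat E (fPosR R e) v ↔ Pos E (R.ev v) (v e) := Iff.rfl

theorem sat_fAbsLe (R : Rl ℕ) (u s : ℕ) (v : ℕ → M) :
    sat E (fAbsLe R u s) v ↔ AbsLe E (R.ev v) (v u) (v s) := Iff.rfl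

theorem sat_fBd (R : Rl ℕ) (f s : ℕ) (v : ℕ → M) : sat E (fBd R f s) v ↔ Bd E (R.ev v) (v f) (v s) := Iff.rfl

theorem sat_fSumF (R : Rl ℕ) (f g h : ℕ) (v : ℕ → M) :
    sat E (fSumF R f g h) v ↔ SumF E (R.ev v) (v f) (v g) (v h) := Iff.rfl

theorem sat_fSmulF (R : Rl ℕ) (c f h : ℕ) (v : ℕ → M) :
    sat E (fSmulF R c f h) v ↔ SmulF E (R.ev v) (v c) (v f) (v h) := Iff.rfl

theorem sat_fDistLe (R : Rl ℕ) (f g s : ℕ) (v : ℕ → M) :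
    sat E (fDistLe R f g s) v ↔ DistLe E (R.ev v) (v f) (v g) (v s) := Iff.rfl

theorem sat_fEquivB (R : Rl ℕ) (x n k : ℕ) (v : ℕ → M) :
    sat E (fEquivB R x n k) v ↔ EquivB E (R.ev v) (v x) (v n) (v k) := Iff.rfl

theorem sat_fIneq (R : Rl ℕ) (x n n' k t : ℕ) (v : ℕ → M) :
    sat E (fIneq R x n n' k t) v ↔ Ineq E (R.ev v) (v x) (v n) (v n') (v k) (v t) := Iff.rfl

theorem sat_fEqNorm (R : Rl ℕ) (x n : ℕ) (v : ℕ → M) :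
    sat E (fEqNorm R x n) v ↔ IsEqNorm E (R.ev v) (v x) (v n) :=
  ⟨fun ⟨h1, h2, h3, h4⟩ => ⟨h1, h2, h3, h4⟩, fun h => ⟨h.fn, h.add, h.smul, h.equiv⟩⟩

theorem sat_fLinBij (R : Rl ℕ) (x t : ℕ) (v : ℕ → M) :
    sat E (fLinBij R x t) v ↔ IsLinBij E (R.ev v) (v x) (v t) :=
  ⟨fun ⟨h1, h2, h3, h4, h5⟩ => ⟨h1, h2, h3, h4, h5⟩, fun h => ⟨h.fn, h.inj, h.surj, h.add, h.smul⟩⟩

end

end Pool.Agent.JO
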