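import Mathlib
import Pool.Agent.Lib.JO.V.Fml
import Pool.Agent.Lib.MP_11349d_lc.P1.RP
import Pool.Agent.Lib.JO.Ifc

/-!
# Part II: names for the real numbers, for sequences of real numbers, and for the space
-/

set_option autoImplicit false

namespace Pool.Agent.JO

open Pool.Agent.BPF Pool.Agent.Lib.BVM BSet
open scoped BoundedContinuousFunction

/-- the real numbers with a well-ordering -/
def WR : Type := ℝ

open Classical in
noncomputable instance : LinearOrder WR := linearOrderOfSTO (WellOrderingRel (α := WR))

instance : WellFoundedLT WR := ⟨(WellOrderingRel.isWellOrder (α := WR)).wf⟩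

section
variable (B : Type) [CompleteBooleanAlgebra B]

/-- the name of a real number -/
noncomputable def rn (t : ℝ) : BSet B := chk B (show WR from t)

/-- the name of the set of the real numbers -/
noncomputable def rSet : BSet B := chkAll B WR

/-- the name of a function of two real variables -/
noncomputable def opN (g : ℝ → ℝ → ℝ) : BSet B :=
  mk (ℝ × ℝ) (fun x => opair (opair (rn B x.1) (rn B x.2)) (rn B (g x.1 x.2))) (fun _ => ⊤)

/-- the name of the order of the real numbers -/
noncomputable def leN : BSet B :=
  mk {x : ℝ × ℝ // x.1 ≤ x.2} (fun x => opair (rn B x.1.1) (rn B x.1.2)) (fun _ => ⊤)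

/-- the name of a sequence of real numbers -/
noncomputable def fnm (u : ℕ → ℝ) : BSet B := mk ℕ (fun n => opair (chk B n) (rn B (u n))) (fun _ => ⊤)

/-- the valuation with the names of `ω`, `ℝ`, `+`, `·`, `≤`, `0`, `1` -/
noncomputable def vR : ℕ → BSet B
  | 0 => chkAll B ℕ
  | 1 => rSet B
  | 2 => opN B (fun s t => s + t)
  | 3 => opN B (fun s t => s * t)
  | 4 => leN B
  | 5 => rn B 0
  | _ => rn B 1

/-- the indices of the names `vR` -/
def R0 : Rl ℕ := ⟨0, 1, 2, 3, 4, 5, 6⟩

end

variable {B : Type} [CompleteBooleanAlgebra B]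

/-- the real numbers of the model -/
noncomputable def RM (U : Ult B) : Rl U.Mod := R0.ev (fun i => U.cls (vR B i))

variable {P : Type} [Preorder P]

/-- the name of the space -/
noncomputable def xN (S : P → Submodule ℝ (ℕ →ᵇ ℝ)) : BSet (RP P) :=
  mk (Σ p, S p) (fun x => fnm (RP P) (fun n => (x.2 : ℕ →ᵇ ℝ) n)) (fun x => RP.j x.1)

end Pool.Agent.JO
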