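import Mathlib
import Pool.Agent.Lib.JO.V.Nam

/-!
# Part II, module NamA (est. 160 lines): values of the names for the real numbers

Definitions: `V/Nam.lean`. `Df0`, `Df1`, `Fc`, `fc_all_mem`, `fc_all_chk`, `rel_iff`, `isPair_opair`, `isPair_unique`, `le_iSup_mem`: `MP_11349d_lc/V/Kit.lean`.
`chk_eq_of_ne`, `chk_mem_chkAll`: `BVM/Check.lean`; `bEq_opair`: `BVM/Pairs.lean`; `Df0.of_sat`, `Df1.of_sat`.

PROOFS. `rn_ne`: `chk_eq_of_ne`. `cls_rn_iff`: `U.cls_eq_iff`, `rn_ne`, `U.bot'`. `rn_mem`: `chk_mem_chkAll`.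
`rel_fn`: `m = U.cls y` (`U.exists_cls`), `rel_iff`, `bMem_mk`, `bEq_opair`: `⨆ j, ⊤ ⊓ (bEq (A i) (A j) ⊓ bEq y (C j)) = bEq y (C i)`, because the terms with
`j ≠ i` are `⊥`, and `bEq_refl`.
`op_add`, `op_mul`: `Op` says that there is `p` with `IsPair p ..` and `Rel g p m`; `p = U.cls (opair ..)` by `isPair_unique` (`U.isZFC.extensionality`) and
`isPair_opair`; then `rel_fn` with `A x = opair (rn x.1) (rn x.2)` (`bEq_opair`, `rn_ne`: different pairs have the value `⊥`).
`le_rn`: `rel_iff`, `bMem_mk`, `bEq_opair`: the supremum is `⊤` (term `⟨(s, t), h⟩`) if `s ≤ t`, and all terms are `⊥` otherwise.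
`pos_rn`, `absLe_rn`: from the preceding ones (`0 ≤ s + t ∧ s ≤ t ↔ |s| ≤ t`).
`fc_all_r`: `fc_all_chk` for `I = WR`. `all1`, `all2`, `all3`: iterate `fc_all_r` with `p = ⊤` and `Df1.of_sat`: for `all3` first
`Φ₃ U m := sat U.E φ (scons (cls rn r) (scons (cls rn s) (scons m v)))` ... (the order of the variables is: `x` = variable 0, `y` = 1, `z` = 2; so the
outermost quantifier may be taken over `z`: for all `z ∈ r`, (for all `y ∈ r`, (for all `x ∈ r`, sat φ (x, y, z, v))), each of these is `sat` of the formula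
`.all (.imp (.mem 0 (k + 1)) φ)` where variable `k` is `r`; e.g. `all2` follows from `all1` applied to the formula `.all (.imp (.mem 0 3) φ)`).
-/

set_option autoImplicit false

namespace Pool.Agent.JO

open Pool.Agent.BPF Pool.Agent.Lib.BVM BSet

variable {B : Type} [CompleteBooleanAlgebra B]

theorem rn_ne {s t : ℝ} (h : s ≠ t) : bEq (rn B s) (rn B t) = ⊥ := by
  exact chk_eq_of_ne (show (show WR from s) ≠ (show WR from t) from h)

theorem cls_rn_iff (U : Ult B) {s t : ℝ} : U.cls (rn B s) = U.cls (rn B t) ↔ s = t := by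
  constructor
  · intro h
    by_contra hne
    rw [U.cls_eq_iff, rn_ne hne] at h
    exact U.bot' h
  · intro h
    rw [h]

theorem rn_mem (U : Ult B) (t : ℝ) : U.E (U.cls (rn B t)) (RM U).r := by
  show U.S (bMem (rn B t) (rSet B))
  have h : bMem (rn B t) (rSet B) = ⊤ := chk_mem_chkAll (show WR from t)
  rw [h]
  exact U.top'

/-- the name of a function: the pairs `(A i, C i)`, where the `A i` are different with value `⊤` -/
theorem rel_fn (U : Ult B) {ι : Type} (A C : ι → BSet B) (hA : ∀ i j, i ≠ j → bEq (A i) (A j) = ⊥)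
    (i : ι) (m : U.Mod) :
    Rel U.E (U.cls (mk ι (fun i => opair (A i) (C i)) (fun _ => ⊤))) (U.cls (A i)) m ↔ m = U.cls (C i) := by
  obtain ⟨y, rfl⟩ := U.exists_cls m
  have h : bMem (opair (A i) y) (mk ι (fun i => opair (A i) (C i)) (fun _ => ⊤)) = bEq y (C i) := by
    rw [bMem_mk]
    apply le_antisymm
    · refine iSup_le fun j => ?_
      rw [top_inf_eq, bEq_opair]
      by_cases hij : i = j
      · subst hij
        exact inf_le_right
      · rw [hA i j hij, bot_inf_eq]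
        exact bot_le
    · refine le_trans ?_ (le_iSup _ i)
      rw [top_inf_eq, bEq_opair, bEq_refl, top_inf_eq]
  rw [rel_iff, h, U.cls_eq_iff]

private theorem nama_op_iff (U : Ult B) (g a b : BSet B) (m : U.Mod) :
    Op U.E (U.cls g) (U.cls a) (U.cls b) m ↔ Rel U.E (U.cls g) (U.cls (opair a b)) m := by
  constructor
  · rintro ⟨p, hp, h⟩
    rw [isPair_unique U.isZFC.extensionality hp (isPair_opair U a b)] at h
    exact h
  · intro h
    exact ⟨_, isPair_opair U a b, h⟩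

private theorem nama_pair_ne (x y : ℝ × ℝ) (h : x ≠ y) :
    bEq (opair (rn B x.1) (rn B x.2)) (opair (rn B y.1) (rn B y.2)) = ⊥ := by
  rw [bEq_opair]
  by_cases h1 : x.1 = y.1
  · have h2 : x.2 ≠ y.2 := fun h2 => h (Prod.ext h1 h2)
    rw [rn_ne h2, inf_bot_eq]
  · rw [rn_ne h1, bot_inf_eq]

private theorem nama_opN (U : Ult B) (g : ℝ → ℝ → ℝ) (s t : ℝ) (m : U.Mod) :
    Op U.E (U.cls (opN B g)) (U.cls (rn B s)) (U.cls (rn B t)) m ↔ m = U.cls (rn B (g s t)) := by
  rw [nama_op_iff]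
  exact rel_fn U (fun x : ℝ × ℝ => opair (rn B x.1) (rn B x.2)) (fun x : ℝ × ℝ => rn B (g x.1 x.2))
    nama_pair_ne (s, t) m

theorem op_add (U : Ult B) (s t : ℝ) (m : U.Mod) :
    Op U.E (RM U).a (U.cls (rn B s)) (U.cls (rn B t)) m ↔ m = U.cls (rn B (s + t)) := by
  exact nama_opN U (fun s t => s + t) s t m

theorem op_mul (U : Ult B) (s t : ℝ) (m : U.Mod) :
    Op U.E (RM U).m (U.cls (rn B s)) (U.cls (rn B t)) m ↔ m = U.cls (rn B (s * t)) := by
  exact nama_opN U (fun s t => s * t) s t m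

theorem le_rn (U : Ult B) (s t : ℝ) : Rel U.E (RM U).l (U.cls (rn B s)) (U.cls (rn B t)) ↔ s ≤ t := by
  show Rel U.E (U.cls (leN B)) (U.cls (rn B s)) (U.cls (rn B t)) ↔ s ≤ t
  rw [rel_iff]
  constructor
  · intro h
    by_contra hst
    have h0 : bMem (opair (rn B s) (rn B t)) (leN B) = ⊥ := by
      unfold leN
      rw [bMem_mk, iSup_eq_bot]
      rintro ⟨x, hx⟩
      rw [top_inf_eq]
      refine nama_pair_ne (s, t) x fun hc => hst ?_
      rw [← hc] at hx
      exact hx
    rw [h0] at h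
    exact U.bot' h
  · intro hst
    have h1 : bMem (opair (rn B s) (rn B t)) (leN B) = ⊤ := by
      unfold leN
      rw [bMem_mk, eq_top_iff]
      refine le_trans ?_ (le_iSup _ (⟨(s, t), hst⟩ : {x : ℝ × ℝ // x.1 ≤ x.2}))
      rw [top_inf_eq, bEq_refl]
    rw [h1]
    exact U.top'

theorem RM_o (U : Ult B) : (RM U).o = U.cls (rn B 0) := rfl

theorem RM_i (U : Ult B) : (RM U).i = U.cls (rn B 1) := rfl

theorem pos_rn (U : Ult B) (t : ℝ) : Pos U.E (RM U) (U.cls (rn B t)) ↔ 0 < t := by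
  constructor
  · rintro ⟨_, h2, h3⟩
    rw [RM_o, le_rn] at h2
    refine lt_of_le_of_ne h2 fun h => h3 ?_
    rw [RM_o, h]
  · intro h
    refine ⟨rn_mem U t, ?_, ?_⟩
    · rw [RM_o, le_rn]
      exact h.le
    · intro h'
      rw [RM_o, cls_rn_iff] at h'
      exact h.ne' h'

theorem absLe_rn (U : Ult B) (s t : ℝ) :
    AbsLe U.E (RM U) (U.cls (rn B s)) (U.cls (rn B t)) ↔ |s| ≤ t := by
  unfold AbsLe
  rw [le_rn, abs_le]
  constructor
  · rintro ⟨h1, u, h2, h3⟩
    rw [op_add] at h2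
    rw [h2, RM_o, le_rn] at h3
    exact ⟨by linarith, h1⟩
  · rintro ⟨h1, h2⟩
    refine ⟨h2, _, (op_add U s t _).2 rfl, ?_⟩
    rw [RM_o, le_rn]
    linarith

theorem fc_all_r {p : B} {Φ : (U : Ult B) → U.Mod → Prop} (hΦ : Df1 Φ)
    (h : ∀ t : ℝ, Fc p (fun U => Φ U (U.cls (rn B t)))) :
    Fc p (fun U => ∀ m, U.E m (RM U).r → Φ U m) := by
  exact fc_all_chk (I := WR) hΦ h

/-- a formula with the parameters `ω, ℝ, ...` (variables `1, 2, ...`, `R0.sh 1`) -/
theorem all1 (φ : Fm) (h : ∀ (U : Ult B) (r : ℝ),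
      sat U.E φ (scons (U.cls (rn B r)) (fun i => U.cls (vR B i))))
    (U : Ult B) (x : U.Mod) (hx : U.E x (RM U).r) :
    sat U.E φ (scons x (fun i => U.cls (vR B i))) := by
  have h0 : Fc (⊤ : B) (fun U => ∀ m, U.E m (RM U).r →
      sat U.E φ (scons m (fun i => U.cls (vR B i)))) :=
    fc_all_r (Df1.of_sat φ (vR B)) fun t U _ => h U t
  exact h0 U U.top' x hx

private theorem nama_scons (U : Ult B) (a : BSet B) (w : ℕ → BSet B) :
    (fun i => U.cls (scons a w i)) = scons (U.cls a) (fun i => U.cls (w i)) := by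
  funext i
  cases i <;> rfl

private theorem nama_all (φ : Fm) (w : ℕ → BSet B)
    (h : ∀ (U : Ult B) (r : ℝ), sat U.E φ (scons (U.cls (rn B r)) (fun i => U.cls (w i))))
    (U : Ult B) (x : U.Mod) (hx : U.E x (RM U).r) :
    sat U.E φ (scons x (fun i => U.cls (w i))) := by
  have h0 : Fc (⊤ : B) (fun U => ∀ m, U.E m (RM U).r →
      sat U.E φ (scons m (fun i => U.cls (w i)))) :=
    fc_all_r (Df1.of_sat φ w) fun t U _ => h U t
  exact h0 U U.top' x hx

/-- a formula with the parameters `ω, ℝ, ...` (variables `2, 3, ...`, `R0.sh 2`) -/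
theorem all2 (φ : Fm) (h : ∀ (U : Ult B) (r s : ℝ),
      sat U.E φ (scons (U.cls (rn B r)) (scons (U.cls (rn B s)) (fun i => U.cls (vR B i)))))
    (U : Ult B) (x y : U.Mod) (hx : U.E x (RM U).r) (hy : U.E y (RM U).r) :
    sat U.E φ (scons x (scons y (fun i => U.cls (vR B i)))) := by
  have h1 : ∀ (U : Ult B) (r : ℝ), sat U.E (.all (.imp (.mem 0 3) φ))
      (scons (U.cls (rn B r)) (fun i => U.cls (vR B i))) := by
    intro U r z hz
    have h2 := nama_all φ (scons (rn B r) (vR B)) (fun U s => by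
      rw [nama_scons]
      exact h U s r) U z hz
    rw [nama_scons] at h2
    exact h2
  exact all1 _ h1 U y hy x hx

/-- a formula with the parameters `ω, ℝ, ...` (variables `3, 4, ...`, `R0.sh 3`) -/
theorem all3 (φ : Fm) (h : ∀ (U : Ult B) (r s t : ℝ),
      sat U.E φ (scons (U.cls (rn B r)) (scons (U.cls (rn B s)) (scons (U.cls (rn B t))
        (fun i => U.cls (vR B i))))))
    (U : Ult B) (x y z : U.Mod) (hx : U.E x (RM U).r) (hy : U.E y (RM U).r) (hz : U.E z (RM U).r) :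
    sat U.E φ (scons x (scons y (scons z (fun i => U.cls (vR B i))))) := by
  have h1 : ∀ (U : Ult B) (r s : ℝ), sat U.E (.all (.imp (.mem 0 4) φ))
      (scons (U.cls (rn B r)) (scons (U.cls (rn B s)) (fun i => U.cls (vR B i)))) := by
    intro U r s z hz
    have h2 := nama_all φ (scons (rn B r) (scons (rn B s) (vR B))) (fun U t => by
      rw [nama_scons, nama_scons]
      exact h U t r s) U z hz
    rw [nama_scons, nama_scons] at h2
    exact h2
  exact all2 _ h1 U y z hy hz x hx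

end Pool.Agent.JO
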