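import Mathlib
import Pool.Agent.Lib.JO.V.NamA

/-!
# Part II, module NamB (est. 140 lines): values of the names for sequences of real numbers

Definitions: `V/Nam.lean`.

PROOFS. `rel_fnm`: `rel_fn` (`A n = chk B n`, `chk_eq_of_ne`). `isFn_fnm`: first part: `fc_all_mem` with `p = ⊤` for the name `fnm B u` (its generators are the
pairs `opair (chk B n) (rn B (u n))`, `isPair_opair`, `chk_mem_chkAll`, `rn_mem`), the property is `Df1` by `Df1.of_sat` (formula as in `fIsFn`); second part: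
`fc_all_chk` (`I = ℕ`) and `rel_fnm`; `U.isZFC` is not needed.
`fnm_ext`: if `IsFn U.E (cls f) ω ℝ` is forced by `p` and `Rel f (chk n) (rn (u n))` for all `n` then `f = fnm u` is forced: for `z ∈ f`: `z` is a pair `(a, b)`, `a ∈ ω`; by `fc_all_chk`:
for all `a ∈ ω` and all `b`: `Rel f a b ↔ Rel (fnm u) a b` (for `a = chk n`: both say `b = rn (u n)`: from `IsFn` for `f`, and `rel_fnm`); both are
functions, so they have the same elements (`isPair_unique`), use `U.isZFC.extensionality`.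
`bd_fnm`, `sumF_fnm`, `smulF_fnm`, `distLe_fnm`: `→`: take `n = chk B n` (`chk_mem_chkAll`) and the values (`rel_fnm`), `op_add`, `op_mul`, `absLe_rn`, `cls_rn_iff`; for
`distLe` take `t = rn (u n - v n)`. `←`: `fc_all_chk` with `p = ⊤` (I = ℕ), `rel_fnm`; for `distLe`: `t ∈ ℝ` with `v n + t = u n`: use `all`-quantifier
over `ℝ` by `fc_all_r` (`t = rn s`, `op_add`, `cls_rn_iff`: `v n + s = u n`).
`cls_fnm_iff`: `→`: apply `Rel _ (chk n)` to both. 
-/

set_option autoImplicit false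

namespace Pool.Agent.JO

open Pool.Agent.BPF Pool.Agent.Lib.BVM BSet

variable {B : Type} [CompleteBooleanAlgebra B]

theorem rel_fnm (U : Ult B) (u : ℕ → ℝ) (n : ℕ) (m : U.Mod) :
    Rel U.E (U.cls (fnm B u)) (U.cls (chk B n)) m ↔ m = U.cls (rn B (u n)) :=
  rel_fn U (fun n => chk B n) (fun n => rn B (u n)) (fun _ _ h => chk_eq_of_ne h) n m

private theorem chkW (U : Ult B) (n : ℕ) : U.E (U.cls (chk B n)) (RM U).w := by
  show U.S (bMem (chk B n) (chkAll B ℕ))
  rw [chk_mem_chkAll]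
  exact U.top'

private theorem allW (φ : Fm) (v : ℕ → BSet B) {p : B}
    (h : ∀ n : ℕ, Fc p (fun U => sat U.E φ (scons (U.cls (chk B n)) (fun i => U.cls (v i)))))
    (U : Ult B) (hU : U.S p) (m : U.Mod) (hm : U.E m (RM U).w) :
    sat U.E φ (scons m (fun i => U.cls (v i))) :=
  fc_all_chk (I := ℕ) (Df1.of_sat φ v) h U hU m hm

theorem cls_fnm_iff (U : Ult B) {u v : ℕ → ℝ} : U.cls (fnm B u) = U.cls (fnm B v) ↔ u = v := by
  constructor
  · intro h
    funext n
    have h1 := (rel_fnm U u n _).2 rfl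
    rw [h, rel_fnm, cls_rn_iff] at h1
    exact h1
  · rintro rfl
    rfl

/-- different sequences are different with value `⊤` -/
theorem fnm_ne {u v : ℕ → ℝ} (h : u ≠ v) : bEq (fnm B u) (fnm B v) = ⊥ := by
  by_contra hc
  obtain ⟨U, hU⟩ := exists_ult hc
  rw [← U.cls_eq_iff, cls_fnm_iff] at hU
  exact h hU

theorem isFn_fnm (U : Ult B) (u : ℕ → ℝ) : IsFn U.E (U.cls (fnm B u)) (RM U).w (RM U).r := by
  constructor
  · refine fc_all_mem (p := ⊤) (Df1.of_sat
      (.ex (.ex (.and (.mem 1 3) (.and (.mem 0 4) (fPair 2 1 0))))) (vR B)) (fnm B u) ?_ U U.top'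
    intro n U _ _
    exact ⟨U.cls (chk (I := ℕ) B n), U.cls (rn B (u n)), chkW U n, rn_mem U _, isPair_opair U _ _⟩
  · refine allW (p := ⊤) (.ex (.and (.mem 0 4) (.all (.iff (fRel 3 2 0) (.eq 0 1)))))
      (scons (fnm B u) (vR B)) ?_ U U.top'
    intro n U _
    exact ⟨U.cls (rn B (u n)), rn_mem U _, fun t => rel_fnm U u n t⟩

theorem fnm_ext {p : B} {f : BSet B} {u : ℕ → ℝ} (h : Fc p (fun U => IsFn U.E (U.cls f) (RM U).w (RM U).r))
    (hu : ∀ n, Fc p (fun U => Rel U.E (U.cls f) (U.cls (chk B n)) (U.cls (rn B (u n))))) :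
    Fc p (fun U => U.cls f = U.cls (fnm B u)) := by
  intro U hU
  have key : ∀ a, U.E a (RM U).w → ∀ b, Rel U.E (U.cls f) a b ↔ Rel U.E (U.cls (fnm B u)) a b := by
    refine allW (p := p) (.all (.iff (fRel 2 1 0) (fRel 3 1 0))) (scons f (scons (fnm B u) (vR B))) ?_ U hU
    intro n U hU b
    show Rel U.E (U.cls f) (U.cls (chk B n)) b ↔ Rel U.E (U.cls (fnm B u)) (U.cls (chk B n)) b
    obtain ⟨v, _, hv⟩ := (h U hU).2 _ (chkW U n)
    rw [rel_fnm, hv, (hv _).1 (hu n U hU)]
  apply U.isZFC.extensionality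
  intro z
  constructor
  · intro hz
    obtain ⟨a, b, ha, _, hp⟩ := (h U hU).1 z hz
    obtain ⟨z', hp', hz'⟩ := (key a ha b).1 ⟨z, hp, hz⟩
    rw [isPair_unique U.isZFC.extensionality hp hp']
    exact hz'
  · intro hz
    obtain ⟨a, b, ha, _, hp⟩ := (isFn_fnm U u).1 z hz
    obtain ⟨z', hp', hz'⟩ := (key a ha b).2 ⟨z, hp, hz⟩
    rw [isPair_unique U.isZFC.extensionality hp hp']
    exact hz'

theorem bd_fnm (U : Ult B) (u : ℕ → ℝ) (t : ℝ) :
    Bd U.E (RM U) (U.cls (fnm B u)) (U.cls (rn B t)) ↔ ∀ n, |u n| ≤ t := by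
  constructor
  · intro h n
    exact (absLe_rn U _ _).1 (h _ _ (chkW U n) ((rel_fnm U u n _).2 rfl))
  · intro h
    have key : ∀ n, U.E n (RM U).w → ∀ x, Rel U.E (U.cls (fnm B u)) n x →
        AbsLe U.E (RM U) x (U.cls (rn B t)) := by
      refine allW (p := ⊤) (.all (.imp (fRel 2 1 0) (fAbsLe (R0.sh 4) 0 3)))
        (scons (fnm B u) (scons (rn B t) (vR B))) ?_ U U.top'
      intro n U _ x hx
      change Rel U.E (U.cls (fnm B u)) (U.cls (chk B n)) x at hx
      rw [rel_fnm] at hx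
      subst hx
      exact (absLe_rn U _ _).2 (h n)
    exact fun n x hn hx => key n hn x hx

theorem sumF_fnm (U : Ult B) (u v w : ℕ → ℝ) :
    SumF U.E (RM U) (U.cls (fnm B u)) (U.cls (fnm B v)) (U.cls (fnm B w)) ↔ ∀ n, u n + v n = w n := by
  constructor
  · intro h n
    have h1 := h _ _ _ _ (chkW U n) ((rel_fnm U u n _).2 rfl) ((rel_fnm U v n _).2 rfl)
      ((rel_fnm U w n _).2 rfl)
    rw [op_add, cls_rn_iff] at h1
    exact h1.symm
  · intro h
    have key : ∀ n, U.E n (RM U).w → ∀ x y z, Rel U.E (U.cls (fnm B u)) n x →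
        Rel U.E (U.cls (fnm B v)) n y → Rel U.E (U.cls (fnm B w)) n z → Op U.E (RM U).a x y z := by
      refine allW (p := ⊤) (.all (.all (.all (.imp (fRel 4 3 2) (.imp (fRel 5 3 1) (.imp (fRel 6 3 0)
        (fOp 9 2 1 0))))))) (scons (fnm B u) (scons (fnm B v) (scons (fnm B w) (vR B)))) ?_ U U.top'
      intro n U _ x y z hx hy hz
      change Rel U.E (U.cls (fnm B u)) (U.cls (chk B n)) x at hx
      change Rel U.E (U.cls (fnm B v)) (U.cls (chk B n)) y at hy
      change Rel U.E (U.cls (fnm B w)) (U.cls (chk B n)) z at hz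
      change Op U.E (RM U).a x y z
      rw [rel_fnm] at hx hy hz
      subst hx hy hz
      rw [op_add, h n]
    exact fun n x y z hn hx hy hz => key n hn x y z hx hy hz

theorem smulF_fnm (U : Ult B) (c : ℝ) (u v : ℕ → ℝ) :
    SmulF U.E (RM U) (U.cls (rn B c)) (U.cls (fnm B u)) (U.cls (fnm B v)) ↔ ∀ n, c * u n = v n := by
  constructor
  · intro h n
    have h1 := h _ _ _ (chkW U n) ((rel_fnm U u n _).2 rfl) ((rel_fnm U v n _).2 rfl)
    rw [op_mul, cls_rn_iff] at h1
    exact h1.symm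
  · intro h
    have key : ∀ n, U.E n (RM U).w → ∀ x z, Rel U.E (U.cls (fnm B u)) n x →
        Rel U.E (U.cls (fnm B v)) n z → Op U.E (RM U).m (U.cls (rn B c)) x z := by
      refine allW (p := ⊤) (.all (.all (.imp (fRel 3 2 1) (.imp (fRel 4 2 0)
        (fOp 9 5 1 0))))) (scons (fnm B u) (scons (fnm B v) (scons (rn B c) (vR B)))) ?_ U U.top'
      intro n U _ x z hx hz
      change Rel U.E (U.cls (fnm B u)) (U.cls (chk B n)) x at hx
      change Rel U.E (U.cls (fnm B v)) (U.cls (chk B n)) z at hz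
      change Op U.E (RM U).m (U.cls (rn B c)) x z
      rw [rel_fnm] at hx hz
      subst hx hz
      rw [op_mul, h n]
    exact fun n x z hn hx hz => key n hn x z hx hz

theorem distLe_fnm (U : Ult B) (u v : ℕ → ℝ) (t : ℝ) :
    DistLe U.E (RM U) (U.cls (fnm B u)) (U.cls (fnm B v)) (U.cls (rn B t)) ↔ ∀ n, |u n - v n| ≤ t := by
  constructor
  · intro h n
    have h1 := h _ _ _ (U.cls (rn B (u n - v n))) (chkW U n) ((rel_fnm U u n _).2 rfl)
      ((rel_fnm U v n _).2 rfl) (rn_mem U _) ((op_add U _ _ _).2 (by rw [add_sub_cancel]))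
    exact (absLe_rn U _ _).1 h1
  · intro h
    have key1 : ∀ (n : ℕ) (U : Ult B) (s : U.Mod), U.E s (RM U).r →
        Op U.E (RM U).a (U.cls (rn B (v n))) s (U.cls (rn B (u n))) →
        AbsLe U.E (RM U) s (U.cls (rn B t)) := by
      intro n U
      refine fc_all_r (p := ⊤) (Df1.of_sat (.imp (fOp 6 1 0 2) (fAbsLe (R0.sh 4) 0 3))
        (scons (rn B (v n)) (scons (rn B (u n)) (scons (rn B t) (vR B))))) ?_ U U.top'
      intro s U _ hs
      change Op U.E (RM U).a (U.cls (rn B (v n))) (U.cls (rn B s)) (U.cls (rn B (u n))) at hs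
      rw [op_add, cls_rn_iff] at hs
      refine (absLe_rn U _ _).2 ?_
      have h2 := h n
      rw [hs, add_sub_cancel_left] at h2
      exact h2
    have key : ∀ n, U.E n (RM U).w → ∀ x y s, Rel U.E (U.cls (fnm B u)) n x →
        Rel U.E (U.cls (fnm B v)) n y → U.E s (RM U).r → Op U.E (RM U).a y s x →
        AbsLe U.E (RM U) s (U.cls (rn B t)) := by
      refine allW (p := ⊤) (.all (.all (.all (.imp (fRel 4 3 2) (.imp (fRel 5 3 1) (.imp (.mem 0 8)
        (.imp (fOp 9 1 0 2) (fAbsLe (R0.sh 7) 0 6)))))))) (scons (fnm B u) (scons (fnm B v)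
        (scons (rn B t) (vR B)))) ?_ U U.top'
      intro n U _ x y s hx hy hs ho
      change Rel U.E (U.cls (fnm B u)) (U.cls (chk B n)) x at hx
      change Rel U.E (U.cls (fnm B v)) (U.cls (chk B n)) y at hy
      change U.E s (RM U).r at hs
      change Op U.E (RM U).a y s x at ho
      change AbsLe U.E (RM U) s (U.cls (rn B t))
      rw [rel_fnm] at hx hy
      subst hx hy
      exact key1 n U s hs ho
    exact fun n x y s hn hx hy hs ho => key n hn x y s hx hy hs ho

end Pool.Agent.JO
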