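import Mathlib
import Pool.Agent.Lib.JO.V.Frc
import Pool.Agent.Lib.JO.V.NamB

/-!
# Part II, module Xn (est. 110 lines): the elements of the space

PROOFS. `cls_xf_iff`: `cls_fnm_iff`, `DFunLike.ext`. `mem_xN`: `mem_iff`, `val_le_bMem` for the generator `⟨p, x⟩` (`Ult.mono`).
`all_x`: `fc_j_allm`: let `i = ⟨r', x⟩` be a generator, `q ≤ p`, `j q ≤ j r'`; show `Fc (j q) (Φ (xf x))` with `fc_j_dense` (`hΦ.df0`): for `q' ≤ q` we have `q' ∈ (j r').s`, so there is `δ ≤ q'`, `δ ≤ r'`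
(`RP.mem_j`), and `x ∈ S r' ≤ S δ` (`hS.mono`): the hypothesis for `δ`.
`ex_x`: `fc_j_exm` gives `q ≤ p`, `i = ⟨r', x⟩`, `j q ≤ j r'`; as before there is `δ ≤ q`, `δ ≤ r'`; `fc_j_mono`.
`ex_r`: `fc_j_exm` for the name `rSet` (its generators are the names `rn t`, `t : ℝ`, by definition).
-/

set_option autoImplicit false

namespace Pool.Agent.JO

open Pool.Agent.BPF Pool.Agent.Lib.BVM BSet
open scoped BoundedContinuousFunction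

variable {P : Type} [Preorder P] {S : P → Submodule ℝ (ℕ →ᵇ ℝ)} {lim : (ℕ → P) → P}

/-- the name of a bounded sequence -/
noncomputable abbrev xf (P : Type) [Preorder P] (x : ℕ →ᵇ ℝ) : BSet (RP P) := fnm (RP P) (fun n => x n)

theorem cls_xf_iff (U : Ult (RP P)) {x y : ℕ →ᵇ ℝ} : U.cls (xf P x) = U.cls (xf P y) ↔ x = y := by
  rw [cls_fnm_iff]
  constructor
  · intro h
    exact DFunLike.ext _ _ fun n => congrFun h n
  · rintro rfl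
    rfl

theorem mem_xN {p : P} {x : ℕ →ᵇ ℝ} (hx : x ∈ S p) :
    Fc (RP.j p) (fun U => U.E (U.cls (xf P x)) (U.cls (xN S))) := by
  intro U hU
  rw [mem_iff]
  exact Ult.mono U (val_le_bMem (xN S) (⟨p, ⟨x, hx⟩⟩ : Σ p, S p)) hU

private theorem j_dec {q r' : P} (h : RP.j q ≤ RP.j r') : ∃ δ ≤ q, δ ≤ r' :=
  RP.mem_j.1 (h (RP.self_mem_j q)) q le_rfl

theorem all_x (hS : IsSys S lim) {p : P} {Φ : (U : Ult (RP P)) → U.Mod → Prop} (hΦ : Df1 Φ)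
    (h : ∀ q ≤ p, ∀ x ∈ S q, Fc (RP.j q) (fun U => Φ U (U.cls (xf P x)))) :
    Fc (RP.j p) (fun U => ∀ m, U.E m (U.cls (xN S)) → Φ U m) := by
  refine fc_j_allm hΦ (xN S) ?_
  rintro ⟨r', x⟩ q hq hj
  refine fc_j_dense (hΦ.df0 _) fun q' hq' => ?_
  obtain ⟨δ, h1, h2⟩ := j_dec ((RP.j_mono hq').trans hj)
  exact ⟨δ, h1, h δ (h1.trans (hq'.trans hq)) x.1 (hS.mono _ _ h2 x.2)⟩

theorem ex_x (hS : IsSys S lim) {p : P} {Φ : (U : Ult (RP P)) → U.Mod → Prop} (hΦ : Df1 Φ)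
    (h : Fc (RP.j p) (fun U => ∃ m, U.E m (U.cls (xN S)) ∧ Φ U m)) :
    ∃ q ≤ p, ∃ x ∈ S q, Fc (RP.j q) (fun U => Φ U (U.cls (xf P x))) := by
  obtain ⟨q, hq, ⟨r', x⟩, hj, hx⟩ := fc_j_exm hΦ (xN S) h
  obtain ⟨δ, h1, h2⟩ := j_dec hj
  exact ⟨δ, h1.trans hq, x.1, hS.mono _ _ h2 x.2, fc_j_mono hx h1⟩

theorem ex_r {p : P} {Φ : (U : Ult (RP P)) → U.Mod → Prop} (hΦ : Df1 Φ)
    (h : Fc (RP.j p) (fun U => ∃ m, U.E m (RM U).r ∧ Φ U m)) :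
    ∃ q ≤ p, ∃ t : ℝ, Fc (RP.j q) (fun U => Φ U (U.cls (rn (RP P) t))) := by
  obtain ⟨q, hq, t, -, ht⟩ := fc_j_exm hΦ (rSet (RP P)) h
  exact ⟨q, hq, t, ht⟩

end Pool.Agent.JO
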