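import Mathlib
import Pool.Agent.Lib.JO.V.Xn

/-!
# Part II, module Seq (est. 100 lines): sequences in the models

PROOFS. `seq_x`: `exists_all` with `Q n q' := ∃ x ∈ S q', Fc (j q') (Rel φ (chk n) (xf x))` (downward closed: `hS.mono`, `fc_j_mono`). For `q' ≤ p`: below `q'` `IsFn φ ω X` is forced; its second part for
`u = chk n ∈ ω` (`chk_mem_chkAll`; `(RM U).w = U.cls (chkAll _ ℕ)` by definition) gives `v ∈ X` with `Rel φ (chk n) v`; `ex_x` (`Df1.rel_right`). `seq_r`: `exists_all` with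
`Q n q' := ∃ t : ℝ, Fc (j q') (Rel φ (chk n) (rn t))` and `ex_r`; `fnm_ext`.
-/

set_option autoImplicit false

namespace Pool.Agent.JO

open Pool.Agent.BPF Pool.Agent.Lib.BVM BSet
open scoped BoundedContinuousFunction

variable {P : Type} [Preorder P] {S : P → Submodule ℝ (ℕ →ᵇ ℝ)} {lim : (ℕ → P) → P}

private theorem val_ex {p : P} {φ : BSet (RP P)} {y : (U : Ult (RP P)) → U.Mod}
    (h : Fc (RP.j p) (fun U => IsFn U.E (U.cls φ) (RM U).w (y U))) (n : ℕ) :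
    Fc (RP.j p) (fun U => ∃ m, U.E m (y U) ∧ Rel U.E (U.cls φ) (U.cls (chk (RP P) n)) m) := by
  intro U hU
  obtain ⟨-, h2⟩ := h U hU
  have hn : U.E (U.cls (chk (RP P) n)) (RM U).w := by
    change U.S (bMem (chk (RP P) n) (chkAll (RP P) ℕ))
    rw [chk_mem_chkAll]
    exact U.top'
  obtain ⟨v, hv, h3⟩ := h2 _ hn
  exact ⟨v, hv, (h3 v).2 rfl⟩

/-- a sequence of elements of the space is decided by a condition -/
theorem seq_x (hS : IsSys S lim) {p : P} {φ : BSet (RP P)}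
    (h : Fc (RP.j p) (fun U => IsFn U.E (U.cls φ) (RM U).w (U.cls (xN S)))) :
    ∃ q ≤ p, ∃ x : ℕ → (ℕ →ᵇ ℝ), ∀ n, x n ∈ S q ∧
      Fc (RP.j q) (fun U => Rel U.E (U.cls φ) (U.cls (chk (RP P) n)) (U.cls (xf P (x n)))) := by
  obtain ⟨q, hq, h1⟩ := exists_all hS (p := p) (Q := fun n q' => ∃ x ∈ S q',
    Fc (RP.j q') (fun U => Rel U.E (U.cls φ) (U.cls (chk (RP P) n)) (U.cls (xf P x))))
    (by
      rintro n q q' hq' ⟨x, hx, hx'⟩
      exact ⟨x, hS.mono _ _ hq' hx, fc_j_mono hx' hq'⟩)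
    (by
      intro n q hq
      exact ex_x hS (Df1.rel_right φ (chk (RP P) n)) (fc_j_mono (val_ex h n) hq))
  choose x hx hx' using h1
  exact ⟨q, hq, x, fun n => ⟨hx n, hx' n⟩⟩

/-- a sequence of real numbers is decided by a condition -/
theorem seq_r (hS : IsSys S lim) {p : P} {φ : BSet (RP P)}
    (h : Fc (RP.j p) (fun U => IsFn U.E (U.cls φ) (RM U).w (RM U).r)) :
    ∃ q ≤ p, ∃ u : ℕ → ℝ, Fc (RP.j q) (fun U => U.cls φ = U.cls (fnm (RP P) u)) := by
  obtain ⟨q, hq, h1⟩ := exists_all hS (p := p) (Q := fun n q' => ∃ t : ℝ,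
    Fc (RP.j q') (fun U => Rel U.E (U.cls φ) (U.cls (chk (RP P) n)) (U.cls (rn (RP P) t))))
    (by
      rintro n q q' hq' ⟨t, ht⟩
      exact ⟨t, fc_j_mono ht hq'⟩)
    (by
      intro n q hq
      exact ex_r (Df1.rel_right φ (chk (RP P) n)) (fc_j_mono (val_ex h n) hq))
  choose u hu using h1
  exact ⟨q, hq, u, fnm_ext (fc_j_mono h hq) hu⟩

end Pool.Agent.JO
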