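import Mathlib
import Pool.Agent.Lib.JO.V.Seq

/-!
# Part II, module Cls (est. 120 lines): the space is closed in the sup norm

PROOF. `f = U.cls φ`. Let `b` be the Boolean value (`Df0.of_sat`) of the two hypotheses for `φ`; `U.S b`. The conclusion `φ ∈ X` is `Df0.of_S`. By `fc_j_below` it is enough to find for every `p` with
`j p ≤ b` a condition `q ≤ p` with `Fc (j q) (φ ∈ X)`. `seq_r` gives `p' ≤ p` and `u` with `Fc (j p') (φ = fnm u)`. `exists_all` with
`Q k q' := ∃ g ∈ S q', Fc (j q') (DistLe (fnm u) (xf g) (rn (1 / (k + 1))))` (for `q' ≤ p'`: the second hypothesis for `e = rn (1 / (k + 1))`, `pos_rn`, then `ex_x`) gives `q ≤ p'` and `g k ∈ S q`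
with `|u n - g k n| ≤ 1 / (k + 1)` for all `n` (`distLe_fnm`, `fc_j_const`). So `u` is bounded, `x := BoundedContinuousFunction.ofNormedAddCommGroupDiscrete u _ _` (or `mkOfDiscrete`), `‖x - g k‖ ≤ 1 / (k + 1)`, `x ∈ S q`
as `S q` is closed (`hS.closed`, `IsClosed.mem_of_tendsto`, `tendsto_iff_norm_sub_tendsto_zero`). `mem_xN` for `x`.
-/

set_option autoImplicit false

namespace Pool.Agent.JO

open Pool.Agent.BPF Pool.Agent.Lib.BVM BSet
open scoped BoundedContinuousFunction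

variable {P : Type} [Preorder P] {S : P → Submodule ℝ (ℕ →ᵇ ℝ)} {lim : (ℕ → P) → P}

private theorem df0_congr {B : Type} [CompleteBooleanAlgebra B] {Φ Ψ : Ult B → Prop} (h : Df0 Φ)
    (e : ∀ U, Φ U ↔ Ψ U) : Df0 Ψ := by
  obtain ⟨b, hb⟩ := h
  exact ⟨b, fun U => (hb U).trans (e U)⟩

theorem x_closed (hS : IsSys S lim) (U : Ult (RP P)) : ∀ f, IsFn U.E f (RM U).w (RM U).r →
    (∀ e, Pos U.E (RM U) e → ∃ g, U.E g (U.cls (xN S)) ∧ DistLe U.E (RM U) f g e) →
      U.E f (U.cls (xN S)) := by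
  intro f hf hf2
  obtain ⟨φ, rfl⟩ := U.exists_cls f
  have hH : Df0 (fun U : Ult (RP P) => IsFn U.E (U.cls φ) (RM U).w (RM U).r ∧
      ∀ e, Pos U.E (RM U) e → ∃ g, U.E g (U.cls (xN S)) ∧ DistLe U.E (RM U) (U.cls φ) g e) :=
    Df0.and (df0_congr (Df0.of_sat (fIsFn 0 1 2) (scons φ (vR (RP P)))) (fun U => sat_fIsFn U.E _ _ _ _))
      (Df0.of_sat (.all (.imp (fPosR (R0.sh 3) 0) (.ex (.and (.mem 0 3) (fDistLe (R0.sh 4) 2 0 1)))))
        (scons φ (scons (xN S) (vR (RP P)))))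
  obtain ⟨b, hb⟩ := hH
  have key : Fc b (fun U => U.E (U.cls φ) (U.cls (xN S))) := by
    refine fc_j_below (Df0.of_S _) fun p hp => ?_
    have h1 : Fc (RP.j p) (fun U => IsFn U.E (U.cls φ) (RM U).w (RM U).r) :=
      fun U hU => ((hb U).1 (Ult.mono U hp hU)).1
    have h2 : Fc (RP.j p) (fun U => ∀ e, Pos U.E (RM U) e → ∃ g, U.E g (U.cls (xN S)) ∧
        DistLe U.E (RM U) (U.cls φ) g e) := fun U hU => ((hb U).1 (Ult.mono U hp hU)).2
    obtain ⟨p', hp', u, hu⟩ := seq_r hS h1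
    obtain ⟨q, hq, hQ⟩ := exists_all hS (p := p')
      (Q := fun k q' => ∃ g ∈ S q', Fc (RP.j q') (fun U => DistLe U.E (RM U) (U.cls (fnm (RP P) u))
        (U.cls (xf P g)) (U.cls (rn (RP P) (1 / ((k : ℝ) + 1))))))
      (fun k q q' hq' ⟨g, hg, h⟩ => ⟨g, hS.mono _ _ hq' hg, fc_j_mono h hq'⟩)
      (by
        intro k q0 hq0
        have hD : Df1 (fun (U : Ult (RP P)) g => DistLe U.E (RM U) (U.cls (fnm (RP P) u)) g
            (U.cls (rn (RP P) (1 / ((k : ℝ) + 1))))) :=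
          Df1.of_sat (fDistLe (R0.sh 3) 1 0 2)
            (scons (fnm (RP P) u) (scons (rn (RP P) (1 / ((k : ℝ) + 1))) (vR (RP P))))
        obtain ⟨r, hr, g, hg, hg2⟩ := ex_x hS (p := q0) hD (by
          intro U hU
          have hU' : U.S (RP.j p') := Ult.mono U (RP.j_mono hq0) hU
          have h3 := h2 U (Ult.mono U (RP.j_mono hp') hU') (U.cls (rn (RP P) (1 / ((k : ℝ) + 1))))
            ((pos_rn U _).2 (by positivity))
          rw [← hu U hU']
          exact h3)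
        exact ⟨r, hr, g, hg, hg2⟩)
    choose g hg hg2 using hQ
    have hdist : ∀ k n, |u n - g k n| ≤ 1 / ((k : ℝ) + 1) := by
      intro k
      have h3 : Fc (RP.j q) (fun _ => ∀ n, |u n - g k n| ≤ 1 / ((k : ℝ) + 1)) := by
        intro U hU
        exact (distLe_fnm U _ _ _).1 (hg2 k U hU)
      exact fc_j_const h3
    have hbd : ∀ n, ‖u n‖ ≤ ‖g 0‖ + 1 := by
      intro n
      have h3 := hdist 0 n
      have h4 := (g 0).norm_coe_le_norm n
      rw [Real.norm_eq_abs] at h4 ⊢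
      have h5 : |u n| ≤ |u n - g 0 n| + |g 0 n| := by
        have := abs_add_le (u n - g 0 n) (g 0 n)
        rwa [sub_add_cancel] at this
      norm_num at h3
      linarith
    obtain ⟨x, hx⟩ : ∃ x : ℕ →ᵇ ℝ, ∀ n, x n = u n :=
      ⟨BoundedContinuousFunction.ofNormedAddCommGroupDiscrete u (‖g 0‖ + 1) hbd, fun n => rfl⟩
    have hnorm : ∀ k, ‖g k - x‖ ≤ 1 / ((k : ℝ) + 1) := by
      intro k
      rw [BoundedContinuousFunction.norm_le (by positivity)]
      intro n
      rw [BoundedContinuousFunction.sub_apply, hx, Real.norm_eq_abs, abs_sub_comm]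
      exact hdist k n
    have hlim : Filter.Tendsto g Filter.atTop (nhds x) := by
      rw [tendsto_iff_norm_sub_tendsto_zero]
      exact squeeze_zero (fun k => norm_nonneg _) hnorm tendsto_one_div_add_atTop_nhds_zero_nat
    have hxS : x ∈ S q :=
      (hS.closed q).mem_of_tendsto hlim (Filter.Eventually.of_forall fun k => hg k)
    refine ⟨q, hq.trans hp', fun U hU => ?_⟩
    have h6 : U.E (U.cls (fnm (RP P) (fun n => x n))) (U.cls (xN S)) := mem_xN hxS U hU
    have h7 : (fun n => x n) = u := funext hx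
    have h8 : U.cls φ = U.cls (fnm (RP P) u) := hu U (Ult.mono U (RP.j_mono hq) hU)
    change U.E (U.cls φ) (U.cls (xN S))
    rw [h8, ← h7]
    exact h6
  exact key U ((hb U).2 ⟨hf, hf2⟩)

end Pool.Agent.JO
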