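import Mathlib
import Pool.Agent.Lib.JO.V.Xn

/-!
# Part II, module FamA (est. 200 lines): names of norms, the decided values

PROOFS. `nmF_exists`: `IsEqNorm.equiv`: `∃ k, Pos k ∧ EquivB .. k`, where `Pos k` contains `k ∈ ℝ`: `ex_r` gives `q ≤ p` and `κ` (`Df1.of_sat` with `fPosR`, `fEquivB`); `pos_rn` and `fc_j_const` give `0 < κ`.
`Dec.mono`: `fc_j_mono`. `Dec.uniq`: `IsFn` (second part for `u = xf x ∈ X`, `mem_xN`): `Rel ν (xf x) t' ↔ t' = v`; `cls_rn_iff`, `fc_j_const`.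
`dec_ex`: the value `v ∈ ℝ` exists by `IsFn`; `ex_r` (`Df1.rel_right`).
`dec_add`: in every model below `j q`: `sumF_fnm`, `IsEqNorm.add` for `xf x`, `xf y`, `xf (x + y)` (`mem_xN`), then `op_add`, `le_rn`; `fc_j_const`.
`dec_smul`: `smulF_fnm`, `IsEqNorm.smul`, `op_mul`, `cls_rn_iff`; if `c < 0` use `c' = rn (-c)` (`op_add`: `c + -c = 0`).
`dec_lower`: `EquivB` with `t = rn (κ * t)` (`op_mul`), `bd_fnm`; `BoundedContinuousFunction.norm_le` (`0 ≤ |x 0| ≤ κ t`). `dec_upper`: `EquivB` with `s = rn ‖x‖` (`bd_fnm`, `norm_coe_le_norm`), `le_rn`.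
`dec_lip`: `dec_ex` gives `q' ≤ q` and `u` with `Dec ν q' (x - y) u`, `u ≤ κ ‖x - y‖` (`dec_upper`); `x = y + (x - y)`: `s ≤ t + u` (`dec_add`, `Dec.mono`); also (`dec_ex` again, `q'' ≤ q'`)
`Dec ν q'' ((-1) • (x - y)) u'` with `u' = u` (`dec_smul`) and `y = x + (-1) • (x - y)`: `t ≤ s + u`.
`dec_closure`: `y k ∈ D`, `y k → x` (`mem_closure_iff_seq_limit`), `Dec ν q (y k) (t k)`; `t k` is a Cauchy sequence by `dec_lip`, `t k → t`. `Dec ν q x t`: `fc_j_dense` (`Df1.df0`, `Df1.rel_right`): for `q' ≤ q` `dec_ex` gives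
`q'' ≤ q'`, `s` with `Dec ν q'' x s`; `|s - t k| ≤ κ ‖x - y k‖` (`dec_lip`), so `s = t`.
-/

set_option autoImplicit false

namespace Pool.Agent.JO

open Pool.Agent.BPF Pool.Agent.Lib.BVM BSet
open scoped BoundedContinuousFunction

variable {P : Type} [Preorder P] {S : P → Submodule ℝ (ℕ →ᵇ ℝ)} {lim : (ℕ → P) → P}

/-- `q` forces `ν(x) = t` -/
def Dec (ν : BSet (RP P)) (q : P) (x : ℕ →ᵇ ℝ) (t : ℝ) : Prop :=
  Fc (RP.j q) (fun U => Rel U.E (U.cls ν) (U.cls (xf P x)) (U.cls (rn (RP P) t)))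

/-- `q` forces that `ν` is a norm of the space which is equivalent to the norm of `ℓ_∞` with the constant `κ` -/
structure NmF (S : P → Submodule ℝ (ℕ →ᵇ ℝ)) (ν : BSet (RP P)) (q : P) (κ : ℝ) : Prop where
  pos : 0 < κ
  norm : Fc (RP.j q) (fun U => IsEqNorm U.E (RM U) (U.cls (xN S)) (U.cls ν))
  equiv : Fc (RP.j q) (fun U => EquivB U.E (RM U) (U.cls (xN S)) (U.cls ν) (U.cls (rn (RP P) κ)))

theorem NmF.mono {ν : BSet (RP P)} {q q' : P} {κ : ℝ} (h : NmF S ν q κ) (hq : q' ≤ q) : NmF S ν q' κ :=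
  ⟨h.pos, fc_j_mono h.norm hq, fc_j_mono h.equiv hq⟩

theorem nmF_exists {ν : BSet (RP P)} {p : P}
    (h : Fc (RP.j p) (fun U => IsEqNorm U.E (RM U) (U.cls (xN S)) (U.cls ν))) :
    ∃ q ≤ p, ∃ κ, NmF S ν q κ := by
  have hΦ : Df1 (fun (U : Ult (RP P)) (m : U.Mod) => Pos U.E (RM U) m ∧
      EquivB U.E (RM U) (U.cls (xN S)) (U.cls ν) m) :=
    Df1.of_sat (.and (fPosR (R0.sh 3) 0) (fEquivB (R0.sh 3) 1 2 0)) (scons (xN S) (scons ν (vR (RP P))))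
  obtain ⟨q, hq, κ, hκ⟩ := ex_r (p := p) hΦ fun U hU => by
    obtain ⟨k, hk, hk'⟩ := (h U hU).equiv
    exact ⟨k, hk.1, hk, hk'⟩
  refine ⟨q, hq, κ, ?_, fc_j_mono h hq, fun U hU => (hκ U hU).2⟩
  exact fc_j_const (p := q) fun U hU => (pos_rn U κ).1 (hκ U hU).1

theorem Dec.mono {ν : BSet (RP P)} {q q' : P} {x : ℕ →ᵇ ℝ} {t : ℝ} (h : Dec ν q x t) (hq : q' ≤ q) :
    Dec ν q' x t :=
  fc_j_mono h hq

theorem Dec.uniq {ν : BSet (RP P)} {q : P} {κ : ℝ} (hν : NmF S ν q κ) {x : ℕ →ᵇ ℝ} (hx : x ∈ S q)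
    {s t : ℝ} (hs : Dec ν q x s) (ht : Dec ν q x t) : s = t := by
  refine fc_j_const (p := q) fun U hU => ?_
  obtain ⟨v, -, hv⟩ := (hν.norm U hU).fn.2 _ (mem_xN hx U hU)
  exact (cls_rn_iff U).1 (((hv _).1 (hs U hU)).trans ((hv _).1 (ht U hU)).symm)

theorem dec_ex {ν : BSet (RP P)} {q : P} {κ : ℝ} (hν : NmF S ν q κ) {x : ℕ →ᵇ ℝ} (hx : x ∈ S q) :
    ∃ q' ≤ q, ∃ t, Dec ν q' x t := by
  refine ex_r (Df1.rel_right ν (xf P x)) fun U hU => ?_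
  obtain ⟨v, hv, hv'⟩ := (hν.norm U hU).fn.2 _ (mem_xN hx U hU)
  exact ⟨v, hv, (hv' v).2 rfl⟩

theorem dec_add {ν : BSet (RP P)} {q : P} {κ : ℝ} (hν : NmF S ν q κ) {x y : ℕ →ᵇ ℝ} (hx : x ∈ S q)
    (hy : y ∈ S q) {s t u : ℝ} (hs : Dec ν q x s) (ht : Dec ν q y t) (hu : Dec ν q (x + y) u) :
    u ≤ s + t := by
  refine fc_j_const (p := q) fun U hU => ?_
  obtain ⟨z, hz, hz'⟩ := (hν.norm U hU).add _ _ _ (mem_xN hx U hU) (mem_xN hy U hU)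
    (mem_xN ((S q).add_mem hx hy) U hU) ((sumF_fnm U _ _ _).2 fun n => rfl) _ _ _ (hs U hU) (ht U hU)
    (hu U hU)
  rw [op_add] at hz
  rw [hz, le_rn] at hz'
  exact hz'

theorem dec_smul {ν : BSet (RP P)} {q : P} {κ : ℝ} (hν : NmF S ν q κ) {x : ℕ →ᵇ ℝ} (hx : x ∈ S q)
    {c s t : ℝ} (hs : Dec ν q x s) (ht : Dec ν q (c • x) t) : t = |c| * s := by
  refine fc_j_const (p := q) fun U hU => ?_
  obtain ⟨h1, h2⟩ := (hν.norm U hU).smul (U.cls (rn (RP P) c)) _ _ (rn_mem U c) (mem_xN hx U hU)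
    (mem_xN ((S q).smul_mem c hx) U hU) ((smulF_fnm U _ _ _).2 fun n => rfl) _ _ (hs U hU) (ht U hU)
  rcases le_or_gt 0 c with hc | hc
  · have h3 := h1 ((le_rn U 0 c).2 hc)
    rw [op_mul, cls_rn_iff] at h3
    rw [h3, abs_of_nonneg hc]
  · have h3 := h2 (U.cls (rn (RP P) (-c))) (rn_mem U _)
      ((op_add U c (-c) _).2 (by rw [add_neg_cancel]; rfl)) ((le_rn U 0 (-c)).2 (by linarith))
    rw [op_mul, cls_rn_iff] at h3
    rw [h3, abs_of_neg hc]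

theorem dec_lower {ν : BSet (RP P)} {q : P} {κ : ℝ} (hν : NmF S ν q κ) {x : ℕ →ᵇ ℝ} (hx : x ∈ S q)
    {t : ℝ} (ht : Dec ν q x t) : ‖x‖ ≤ κ * t := by
  have h : ∀ n, |x n| ≤ κ * t := by
    refine fc_j_const (p := q) fun U hU => ?_
    exact (bd_fnm U _ _).1 ((hν.equiv U hU _ _ (mem_xN hx U hU) (ht U hU)).1 _ ((op_mul U κ t _).2 rfl))
  exact (BoundedContinuousFunction.norm_le ((abs_nonneg _).trans (h 0))).2 h

theorem dec_upper {ν : BSet (RP P)} {q : P} {κ : ℝ} (hν : NmF S ν q κ) {x : ℕ →ᵇ ℝ} (hx : x ∈ S q)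
    {t : ℝ} (ht : Dec ν q x t) : t ≤ κ * ‖x‖ := by
  refine fc_j_const (p := q) fun U hU => ?_
  exact (le_rn U _ _).1 ((hν.equiv U hU _ _ (mem_xN hx U hU) (ht U hU)).2 (U.cls (rn (RP P) ‖x‖)) _
    (rn_mem U _) ((bd_fnm U _ _).2 fun n => x.norm_coe_le_norm n) ((op_mul U κ ‖x‖ _).2 rfl))

theorem dec_lip (hS : IsSys S lim) {ν : BSet (RP P)} {q : P} {κ : ℝ} (hν : NmF S ν q κ) {x y : ℕ →ᵇ ℝ}
    (hx : x ∈ S q) (hy : y ∈ S q) {s t : ℝ} (hs : Dec ν q x s) (ht : Dec ν q y t) :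
    |s - t| ≤ κ * ‖x - y‖ := by
  obtain ⟨q', hq', u, hu⟩ := dec_ex hν ((S q).sub_mem hx hy)
  have hν' := hν.mono hq'
  have hx' : x ∈ S q' := hS.mono _ _ hq' hx
  have hy' : y ∈ S q' := hS.mono _ _ hq' hy
  have hd' : x - y ∈ S q' := (S q').sub_mem hx' hy'
  obtain ⟨q'', hq'', u', hu'⟩ := dec_ex hν' ((S q').smul_mem (-1) hd')
  have hν'' := hν'.mono hq''
  have hx'' : x ∈ S q'' := hS.mono _ _ hq'' hx'
  have hy'' : y ∈ S q'' := hS.mono _ _ hq'' hy'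
  have hd'' : x - y ∈ S q'' := hS.mono _ _ hq'' hd'
  have h1 : s ≤ t + u := dec_add hν' hy' hd' (ht.mono hq') hu (by
    rw [add_sub_cancel]
    exact hs.mono hq')
  have h2 : u' = u := by
    have h := dec_smul hν'' hd'' (hu.mono hq'') hu'
    rw [h, abs_neg, abs_one, one_mul]
  have h3 : t ≤ s + u' := dec_add hν'' hx'' ((S q'').smul_mem (-1) hd'') ((hs.mono hq').mono hq'') hu' (by
    rw [neg_one_smul, ← sub_eq_add_neg, sub_sub_cancel]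
    exact (ht.mono hq').mono hq'')
  have h4 := dec_upper hν' hd' hu
  rw [abs_le]
  constructor <;> linarith

theorem dec_closure (hS : IsSys S lim) {ν : BSet (RP P)} {q : P} {κ : ℝ} (hν : NmF S ν q κ)
    {D : Set (ℕ →ᵇ ℝ)} (hD : ∀ y ∈ D, y ∈ S q ∧ ∃ t, Dec ν q y t) {x : ℕ →ᵇ ℝ} (hx : x ∈ S q)
    (hxD : x ∈ closure D) : ∃ t, Dec ν q x t := by
  obtain ⟨y, hyD, hy⟩ := mem_closure_iff_seq_limit.1 hxD
  choose hyS t ht using fun k => hD (y k) (hyD k)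
  have hc : CauchySeq t := by
    rw [Metric.cauchySeq_iff]
    intro ε hε
    obtain ⟨N, hN⟩ := Metric.cauchySeq_iff.1 hy.cauchySeq (ε / κ) (div_pos hε hν.pos)
    refine ⟨N, fun m hm n hn => ?_⟩
    have h1 := hN m hm n hn
    rw [dist_eq_norm, lt_div_iff₀ hν.pos, mul_comm] at h1
    rw [Real.dist_eq]
    exact (dec_lip hS hν (hyS m) (hyS n) (ht m) (ht n)).trans_lt h1
  obtain ⟨t₀, ht₀⟩ := cauchySeq_tendsto_of_complete hc
  refine ⟨t₀, fc_j_dense ((Df1.rel_right ν (xf P x)).df0 _) fun q' hq' => ?_⟩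
  obtain ⟨q'', hq'', s, hs⟩ := dec_ex (hν.mono hq') (hS.mono _ _ hq' hx)
  refine ⟨q'', hq'', ?_⟩
  have hle : q'' ≤ q := hq''.trans hq'
  have h1 : Filter.Tendsto (fun k => κ * ‖y k - x‖) Filter.atTop (nhds 0) := by
    have h2 := (tendsto_iff_norm_sub_tendsto_zero.1 hy).const_mul κ
    rwa [mul_zero] at h2
  have h2 : Filter.Tendsto t Filter.atTop (nhds s) := by
    rw [tendsto_iff_norm_sub_tendsto_zero]
    refine squeeze_zero (fun _ => norm_nonneg _) (fun k => ?_) h1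
    exact dec_lip hS (hν.mono hle) (hS.mono _ _ hle (hyS k)) (hS.mono _ _ hle hx) ((ht k).mono hle) hs
  rw [tendsto_nhds_unique ht₀ h2]
  exact hs

end Pool.Agent.JO
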