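import Mathlib
import Pool.Agent.Lib.JO.V.FamA

/-!
# Part II, module FamB (est. 160 lines): the conditions which decide two norms

PROOFS. `decA_step`: `hS.sep q` and `TopologicalSpace.IsSeparable.exists_countable_dense_subset` give a countable `c ⊆ S q`, `S q ⊆ closure c`; if `c` is nonempty enumerate it (`Set.Countable.exists_eq_range`);
`exists_all` for `Q k q' := (∃ t, Dec ν q' (d k) t) ∧ ∃ t, Dec ν' q' (d k) t` (`dec_ex` twice, `Dec.mono`; `d k ∈ S q ≤ S q'` by `hS.mono`) gives `q' ≤ q`; `dec_closure` at `q'` with `D = c` (`NmF.mono`; `x ∈ S q ≤ S q'`).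
(`c` is nonempty because `0 ∈ S q ⊆ closure c`.)
`decA_lim`: if every element of `S (r k)` is decided by `lim r`, then every element of `S (lim r)` is: `dec_closure` with `D = ⋃ k, S (r k)` (`hS.lim_S`, `hS.mono`, `hS.lim_le`).
`isDom_DDs`: `le`: trivial. `lim`: `decA_lim` and `Dec.mono`; `lim r ≤ r 0 ≤ p₀`. `dense`: `exists_lim` (starting with `p`, `Q q r := ∀ x ∈ S q, decided by r`; by `decA_step`) gives `r`; `lim r` is in the set by `decA_lim`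
(an element of `S (r k)` is decided by `r (k + 1) ≥ lim r`).
-/

set_option autoImplicit false

namespace Pool.Agent.JO

open Pool.Agent.BPF Pool.Agent.Lib.BVM BSet
open scoped BoundedContinuousFunction

variable {P : Type} [Preorder P] {S : P → Submodule ℝ (ℕ →ᵇ ℝ)} {lim : (ℕ → P) → P}

/-- `q` decides the values `ν(x)` and `ν'(x)` -/
def Dec2 (ν ν' : BSet (RP P)) (q : P) (x : ℕ →ᵇ ℝ) : Prop := (∃ t, Dec ν q x t) ∧ ∃ t, Dec ν' q x t

/-- the conditions which decide the norms on their space -/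
def DDs (S : P → Submodule ℝ (ℕ →ᵇ ℝ)) (ν ν' : BSet (RP P)) (p₀ : P) : Set P :=
  {q | q ≤ p₀ ∧ ∀ x ∈ S q, Dec2 ν ν' q x}

private theorem Dec2.mono {ν ν' : BSet (RP P)} {q q' : P} {x : ℕ →ᵇ ℝ} (h : Dec2 ν ν' q x)
    (hq : q' ≤ q) : Dec2 ν ν' q' x := by
  obtain ⟨⟨t, ht⟩, ⟨t', ht'⟩⟩ := h
  exact ⟨⟨t, ht.mono hq⟩, ⟨t', ht'.mono hq⟩⟩

theorem decA_step (hS : IsSys S lim) {ν ν' : BSet (RP P)} {q : P} {κ κ' : ℝ} (hν : NmF S ν q κ)
    (hν' : NmF S ν' q κ') : ∃ q' ≤ q, ∀ x ∈ S q, Dec2 ν ν' q' x := by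
  obtain ⟨c, hcS, hcc, hcd⟩ := (hS.sep q).exists_countable_dense_subset
  have hne : c.Nonempty := by
    rw [← closure_nonempty_iff]
    exact ⟨0, hcd (S q).zero_mem⟩
  obtain ⟨d, hd⟩ := hcc.exists_eq_range hne
  have hdS : ∀ k, d k ∈ S q := fun k => hcS (by rw [hd]; exact ⟨k, rfl⟩)
  obtain ⟨q', hq', hQ⟩ := exists_all hS (p := q) (Q := fun k r => Dec2 ν ν' r (d k))
    (fun k r r' hr h => h.mono hr) (fun k r hr => by
      obtain ⟨r₁, hr₁, t, ht⟩ := dec_ex (hν.mono hr) (hS.mono q r hr (hdS k))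
      obtain ⟨r₂, hr₂, t', ht'⟩ := dec_ex (hν'.mono (hr₁.trans hr))
        (hS.mono q r₁ (hr₁.trans hr) (hdS k))
      exact ⟨r₂, hr₂.trans hr₁, ⟨t, ht.mono hr₂⟩, ⟨t', ht'⟩⟩)
  refine ⟨q', hq', fun x hx => ⟨?_, ?_⟩⟩
  · refine dec_closure hS (hν.mono hq') (D := c) ?_ (hS.mono q q' hq' hx) (hcd hx)
    intro y hy
    refine ⟨hS.mono q q' hq' (hcS hy), ?_⟩
    rw [hd] at hy
    obtain ⟨k, rfl⟩ := hy
    exact (hQ k).1
  · refine dec_closure hS (hν'.mono hq') (D := c) ?_ (hS.mono q q' hq' hx) (hcd hx)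
    intro y hy
    refine ⟨hS.mono q q' hq' (hcS hy), ?_⟩
    rw [hd] at hy
    obtain ⟨k, rfl⟩ := hy
    exact (hQ k).2

theorem decA_lim (hS : IsSys S lim) {ν ν' : BSet (RP P)} {r : ℕ → P} (hr : Antitone r) {κ κ' : ℝ}
    (hν : NmF S ν (lim r) κ) (hν' : NmF S ν' (lim r) κ') (h : ∀ k, ∀ x ∈ S (r k), Dec2 ν ν' (lim r) x) :
    ∀ x ∈ S (lim r), Dec2 ν ν' (lim r) x := by
  intro x hx
  have hcl := hS.lim_S r hr hx
  refine ⟨?_, ?_⟩
  · refine dec_closure hS hν (D := ⋃ k, (S (r k) : Set (ℕ →ᵇ ℝ))) ?_ hx hcl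
    intro y hy
    obtain ⟨k, hk⟩ := Set.mem_iUnion.mp hy
    exact ⟨hS.mono (r k) (lim r) (hS.lim_le r hr k) hk, (h k y hk).1⟩
  · refine dec_closure hS hν' (D := ⋃ k, (S (r k) : Set (ℕ →ᵇ ℝ))) ?_ hx hcl
    intro y hy
    obtain ⟨k, hk⟩ := Set.mem_iUnion.mp hy
    exact ⟨hS.mono (r k) (lim r) (hS.lim_le r hr k) hk, (h k y hk).2⟩

theorem isDom_DDs (hS : IsSys S lim) {ν ν' : BSet (RP P)} {p₀ : P} {κ κ' : ℝ} (hν : NmF S ν p₀ κ)
    (hν' : NmF S ν' p₀ κ') : IsDom lim p₀ (DDs S ν ν' p₀) := by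
  refine ⟨fun p hp => hp.1, ?_, ?_⟩
  · intro p hp
    obtain ⟨r, hr0, hr, hQ⟩ := exists_lim hS (p := p)
      (Q := fun q q' => ∀ x ∈ S q, Dec2 ν ν' q' x)
      (fun q hq => decA_step hS (hν.mono (hq.trans hp)) (hν'.mono (hq.trans hp)))
    have hle : lim r ≤ p := by
      rw [← hr0]
      exact hS.lim_le r hr 0
    refine ⟨lim r, hle, hle.trans hp, ?_⟩
    refine decA_lim hS hr (hν.mono (hle.trans hp)) (hν'.mono (hle.trans hp)) ?_
    intro k x hx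
    exact (hQ k x hx).mono (hS.lim_le r hr (k + 1))
  · intro r hr hrD
    have hle : lim r ≤ p₀ := (hS.lim_le r hr 0).trans (hrD 0).1
    refine ⟨hle, ?_⟩
    refine decA_lim hS hr (hν.mono hle) (hν'.mono hle) ?_
    intro k x hx
    exact ((hrD k).2 x hx).mono (hS.lim_le r hr k)

end Pool.Agent.JO
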