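import Mathlib
import Pool.Agent.Lib.JO.V.FamA

/-!
# Part II, module FamC (est. 110 lines): the family of norms given by a name

PROOFS. `NN_spec`: `Classical.choose_spec` (`dif_pos`). `NN_eq`: `Dec.uniq`. `isFam_NN`: `add`, `smul`, `lower`, `upper`: `NN_spec` for the elements involved (all are in `S p`, so they are decided by `p ∈ D`) and
`dec_add`, `dec_smul`, `dec_lower` (`‖x‖ ≤ κ t`, so `c ‖x‖ ≤ t` as `c ≤ 1 / κ`; `0 ≤ ‖x‖`), `dec_upper`, with `NmF.mono`. `coh`: `Dec.mono`, `NN_eq`.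
-/

set_option autoImplicit false

namespace Pool.Agent.JO

open Pool.Agent.BPF Pool.Agent.Lib.BVM BSet
open scoped BoundedContinuousFunction

variable {P : Type} [Preorder P] {S : P → Submodule ℝ (ℕ →ᵇ ℝ)} {lim : (ℕ → P) → P}

open Classical in
/-- the value of the norm `ν` at `x` decided by `q` -/
noncomputable def NN (ν : BSet (RP P)) (q : P) (x : ℕ →ᵇ ℝ) : ℝ :=
  if h : ∃ t, Dec ν q x t then h.choose else 0

theorem NN_spec {ν : BSet (RP P)} {q : P} {x : ℕ →ᵇ ℝ} (h : ∃ t, Dec ν q x t) : Dec ν q x (NN ν q x) := by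
  unfold NN
  rw [dif_pos h]
  exact h.choose_spec

theorem NN_eq {ν : BSet (RP P)} {q : P} {κ : ℝ} (hν : NmF S ν q κ) {x : ℕ →ᵇ ℝ} (hx : x ∈ S q) {t : ℝ}
    (h : Dec ν q x t) : NN ν q x = t := by
  exact Dec.uniq hν hx (NN_spec ⟨t, h⟩) h

theorem isFam_NN (hS : IsSys S lim) {ν : BSet (RP P)} {p₀ : P} {κ : ℝ} (hν : NmF S ν p₀ κ) {D : Set P}
    (hD : ∀ q ∈ D, q ≤ p₀ ∧ ∀ x ∈ S q, ∃ t, Dec ν q x t) {c C : ℝ} (hc : c ≤ 1 / κ) (hC : κ ≤ C) :
    IsFam S D c C (NN ν) := by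
  have hm : ∀ p ∈ D, NmF S ν p κ := fun p hp => hν.mono (hD p hp).1
  have hsp : ∀ p ∈ D, ∀ x ∈ S p, Dec ν p x (NN ν p x) := fun p hp x hx => NN_spec ((hD p hp).2 x hx)
  refine ⟨?_, ?_, ?_, ?_, ?_⟩
  · intro p hp x hx y hy
    exact dec_add (hm p hp) hx hy (hsp p hp x hx) (hsp p hp y hy) (hsp p hp _ ((S p).add_mem hx hy))
  · intro p hp t x hx
    exact dec_smul (hm p hp) hx (hsp p hp x hx) (hsp p hp _ ((S p).smul_mem t hx))
  · intro p hp x hx
    have h1 := dec_lower (hm p hp) hx (hsp p hp x hx)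
    have h2 : c * ‖x‖ ≤ 1 / κ * ‖x‖ := mul_le_mul_of_nonneg_right hc (norm_nonneg x)
    refine h2.trans ?_
    rw [div_mul_eq_mul_div, one_mul, div_le_iff₀ hν.pos, mul_comm]
    exact h1
  · intro p hp x hx
    exact (dec_upper (hm p hp) hx (hsp p hp x hx)).trans (mul_le_mul_of_nonneg_right hC (norm_nonneg x))
  · intro p hp q hq hqp x hx
    exact NN_eq (hm q hq) (hS.mono p q hqp hx) ((hsp p hp x hx).mono hqp)

end Pool.Agent.JO
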