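import Mathlib
import Pool.Agent.Lib.JO.V.Seq

/-!
# Part II, module Nsp (est. 110 lines): the space is not separable

PROOF. Let `IsFn (U.cls φ) ω X` hold, `b` its Boolean value (`Df0.of_sat`). The conclusion `∃ f e, ...` is a `Df0` (`Df0.of_sat`). By `fc_j_below` it is enough to find for every `p` with
`j p ≤ b` a condition `q ≤ p` which forces it. `seq_x` gives `p' ≤ p`, `x n ∈ S p'` with `Fc (j p') (Rel φ (chk n) (xf (x n)))`. `hS.ext p'` gives `q ≤ p'` and `y ∈ S q` with `‖y - z‖ ≥ 1` for all `z ∈ S p'`.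
Take `f = xf y` (`mem_xN`), `e = rn (1 / 2)` (`pos_rn`). For all `n ∈ ω` and all `g` with `Rel φ n g` not `DistLe f g e`: `fc_all_chk` (`Df1.of_sat`); for `n = chk k`: `g = xf (x k)` because `φ` is a
function (`IsFn`); `DistLe (xf y) (xf (x k)) (rn (1 / 2))` would give `‖y - x k‖ ≤ 1 / 2` (`distLe_fnm`, `BoundedContinuousFunction.norm_le`).
-/

set_option autoImplicit false

namespace Pool.Agent.JO

open Pool.Agent.BPF Pool.Agent.Lib.BVM BSet
open scoped BoundedContinuousFunction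

variable {P : Type} [Preorder P] {S : P → Submodule ℝ (ℕ →ᵇ ℝ)} {lim : (ℕ → P) → P}

theorem x_nonsep (hS : IsSys S lim) (U : Ult (RP P)) : Nonsep U.E (RM U) (U.cls (xN S)) := by
  intro q hq
  obtain ⟨φ, rfl⟩ := U.exists_cls q
  obtain ⟨b, hb⟩ : Df0 (B := RP P) (fun U => sat U.E (fIsFn 0 2 1)
      (fun i => U.cls (scons φ (scons (xN S) (vR (RP P))) i))) := Df0.of_sat _ _
  have hc : Df0 (B := RP P) (fun U => ∃ f e, U.E f (U.cls (xN S)) ∧ Pos U.E (RM U) e ∧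
      ∀ n g, U.E n (RM U).w → Rel U.E (U.cls φ) n g → ¬ DistLe U.E (RM U) f g e) :=
    Df0.of_sat (.ex (.ex (.and (.mem 1 3) (.and (fPosR (R0.sh 4) 0) (.all (.all (.imp (.mem 1 6)
      (.imp (fRel 4 1 0) (.neg (fDistLe (R0.sh 6) 3 0 2)))))))))) (scons φ (scons (xN S) (vR (RP P))))
  have hU : U.S b := (hb U).2 ((sat_fIsFn _ _ _ _ _).2 hq)
  refine fc_j_below (b := b) hc (fun p hp => ?_) U hU
  have hfn : Fc (RP.j p) (fun V => IsFn V.E (V.cls φ) (RM V).w (V.cls (xN S))) := fun V hV =>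
    (sat_fIsFn _ _ _ _ _).1 ((hb V).1 (Ult.mono V hp hV))
  obtain ⟨p', hp', x, hx⟩ := seq_x hS hfn
  obtain ⟨q, hq, y, hy, hyz⟩ := hS.ext p'
  refine ⟨q, hq.trans hp', fun V hV => ⟨V.cls (xf P y), V.cls (rn (RP P) (1 / 2)), mem_xN hy V hV,
    (pos_rn V _).2 (by norm_num), ?_⟩⟩
  have hΦ : Df1 (B := RP P) (fun V n => ∀ g, Rel V.E (V.cls φ) n g →
      ¬ DistLe V.E (RM V) (V.cls (xf P y)) g (V.cls (rn (RP P) (1 / 2)))) :=
    Df1.of_sat (.all (.imp (fRel 2 1 0) (.neg (fDistLe (R0.sh 5) 3 0 4))))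
      (scons φ (scons (xf P y) (scons (rn (RP P) (1 / 2)) (vR (RP P)))))
  have key : Fc (RP.j q) (fun V => ∀ n, V.E n (V.cls (chkAll (RP P) ℕ)) → ∀ g, Rel V.E (V.cls φ) n g →
      ¬ DistLe V.E (RM V) (V.cls (xf P y)) g (V.cls (rn (RP P) (1 / 2)))) := by
    refine fc_all_chk hΦ fun k W hW g hg hd => ?_
    have hW' : W.S (RP.j p') := Ult.mono W (RP.j_mono hq) hW
    have hf := hfn W (Ult.mono W (RP.j_mono hp') hW')
    have hk : W.E (W.cls (chk (RP P) k)) (RM W).w := by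
      show W.E (W.cls (chk (RP P) k)) (W.cls (chkAll (RP P) ℕ))
      rw [mem_iff, chk_mem_chkAll]
      exact S_top W
    obtain ⟨v, -, hv⟩ := hf.2 _ hk
    have e1 := (hv g).1 hg
    have e2 := (hv _).1 ((hx k).2 W hW')
    rw [e1, ← e2, distLe_fnm] at hd
    have h1 := hyz (x k) (hx k).1
    have h2 : ‖y - x k‖ ≤ 1 / 2 := by
      rw [BoundedContinuousFunction.norm_le (by norm_num)]
      intro n
      simpa using hd n
    linarith
  exact fun n g hn hg => key V hV n hn g hg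

end Pool.Agent.JO
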