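import Mathlib
import Pool.Agent.Lib.JO.V.NamA

/-!
# Part II, module RlA (est. 150 lines): the axioms of an ordered field, first part

PROOFS. Write the statement as a formula with the parameters `ω, ℝ, +, ·, ≤, 0, 1` (after 3 variables these are the variables `3, ..., 9`, i.e. `R0.sh 3`), and use `all1`,
`all2`, `all3` (module NamA). E.g. for `add_assoc`: `φ = .all (.all (.all (.all (.imp (fOp 8 3 4 2) (.imp (fOp 8 4 5 1) (.imp (fOp 8 2 5 0) (fOp 8 3 1 0))))))` (`u, v, z` =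
variables `3, 4, 5`, `p, q, s` = `2, 1, 0`, `+` = `2 + 6 = 8`); for the names `rn r`, `rn s`, `rn t`: `p = rn (r + s)`, `q = rn (s + t)`, ... by `op_add`, then `rn_ne`-free arithmetic
(`add_assoc`, `mul_assoc`, `mul_add`). Conversions by `Iff.rfl` / `exact`. `add_fn`, `mul_fn`: `z = rn (r + s)`.
-/

set_option autoImplicit false

namespace Pool.Agent.JO

open Pool.Agent.BPF Pool.Agent.Lib.BVM BSet

variable {B : Type} [CompleteBooleanAlgebra B] (U : Ult B)

theorem rl_ne : (RM U).o ≠ (RM U).i := by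
  rw [RM_o, RM_i]
  intro h
  exact zero_ne_one ((cls_rn_iff U).1 h)

theorem rl_add_fn : ∀ u v, U.E u (RM U).r → U.E v (RM U).r →
    ∃ z, U.E z (RM U).r ∧ ∀ t, Op U.E (RM U).a u v t ↔ t = z := by
  intro u v hu hv
  refine all2 (.ex (.and (.mem 0 4) (.all (.iff (fOp 6 2 3 0) (.eq 0 1))))) ?_ U u v hu hv
  intro U r s
  exact ⟨U.cls (rn B (r + s)), rn_mem U _, fun t => op_add U r s t⟩

theorem rl_mul_fn : ∀ u v, U.E u (RM U).r → U.E v (RM U).r →
    ∃ z, U.E z (RM U).r ∧ ∀ t, Op U.E (RM U).m u v t ↔ t = z := by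
  intro u v hu hv
  refine all2 (.ex (.and (.mem 0 4) (.all (.iff (fOp 7 2 3 0) (.eq 0 1))))) ?_ U u v hu hv
  intro U r s
  exact ⟨U.cls (rn B (r * s)), rn_mem U _, fun t => op_mul U r s t⟩

theorem rl_add_comm : ∀ u v z, U.E u (RM U).r → U.E v (RM U).r → U.E z (RM U).r →
    Op U.E (RM U).a u v z → Op U.E (RM U).a v u z := by
  intro u v z hu hv hz
  refine all3 (.imp (fOp 5 0 1 2) (fOp 5 1 0 2)) ?_ U u v z hu hv hz
  intro U r s t h
  change Op U.E (RM U).a (U.cls (rn B r)) (U.cls (rn B s)) (U.cls (rn B t)) at h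
  change Op U.E (RM U).a (U.cls (rn B s)) (U.cls (rn B r)) (U.cls (rn B t))
  rw [op_add] at h ⊢
  rw [h, add_comm]

theorem rl_mul_comm : ∀ u v z, U.E u (RM U).r → U.E v (RM U).r → U.E z (RM U).r →
    Op U.E (RM U).m u v z → Op U.E (RM U).m v u z := by
  intro u v z hu hv hz
  refine all3 (.imp (fOp 6 0 1 2) (fOp 6 1 0 2)) ?_ U u v z hu hv hz
  intro U r s t h
  change Op U.E (RM U).m (U.cls (rn B r)) (U.cls (rn B s)) (U.cls (rn B t)) at h
  change Op U.E (RM U).m (U.cls (rn B s)) (U.cls (rn B r)) (U.cls (rn B t))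
  rw [op_mul] at h ⊢
  rw [h, mul_comm]

theorem rl_add_assoc : ∀ u v z, U.E u (RM U).r → U.E v (RM U).r → U.E z (RM U).r →
    ∀ p q s, Op U.E (RM U).a u v p → Op U.E (RM U).a v z q → Op U.E (RM U).a p z s →
      Op U.E (RM U).a u q s := by
  intro u v z hu hv hz
  refine all3 (.all (.all (.all (.imp (fOp 8 3 4 2) (.imp (fOp 8 4 5 1) (.imp (fOp 8 2 5 0)
    (fOp 8 3 1 0))))))) ?_ U u v z hu hv hz
  intro U a b c p q s h1 h2 h3
  change Op U.E (RM U).a (U.cls (rn B a)) (U.cls (rn B b)) p at h1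
  change Op U.E (RM U).a (U.cls (rn B b)) (U.cls (rn B c)) q at h2
  change Op U.E (RM U).a p (U.cls (rn B c)) s at h3
  change Op U.E (RM U).a (U.cls (rn B a)) q s
  rw [op_add] at h1 h2
  subst h1 h2
  rw [op_add] at h3 ⊢
  rw [h3, add_assoc]

theorem rl_mul_assoc : ∀ u v z, U.E u (RM U).r → U.E v (RM U).r → U.E z (RM U).r →
    ∀ p q s, Op U.E (RM U).m u v p → Op U.E (RM U).m v z q → Op U.E (RM U).m p z s →
      Op U.E (RM U).m u q s := by
  intro u v z hu hv hz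
  refine all3 (.all (.all (.all (.imp (fOp 9 3 4 2) (.imp (fOp 9 4 5 1) (.imp (fOp 9 2 5 0)
    (fOp 9 3 1 0))))))) ?_ U u v z hu hv hz
  intro U a b c p q s h1 h2 h3
  change Op U.E (RM U).m (U.cls (rn B a)) (U.cls (rn B b)) p at h1
  change Op U.E (RM U).m (U.cls (rn B b)) (U.cls (rn B c)) q at h2
  change Op U.E (RM U).m p (U.cls (rn B c)) s at h3
  change Op U.E (RM U).m (U.cls (rn B a)) q s
  rw [op_mul] at h1 h2
  subst h1 h2
  rw [op_mul] at h3 ⊢
  rw [h3, mul_assoc]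

theorem rl_distrib : ∀ u v z, U.E u (RM U).r → U.E v (RM U).r → U.E z (RM U).r →
    ∀ p q s t, Op U.E (RM U).a v z p → Op U.E (RM U).m u v q → Op U.E (RM U).m u z s →
      Op U.E (RM U).m u p t → Op U.E (RM U).a q s t := by
  intro u v z hu hv hz
  refine all3 (.all (.all (.all (.all (.imp (fOp 9 5 6 3) (.imp (fOp 10 4 5 2) (.imp (fOp 10 4 6 1)
    (.imp (fOp 10 4 3 0) (fOp 9 2 1 0))))))))) ?_ U u v z hu hv hz
  intro U a b c p q s t h1 h2 h3 h4
  change Op U.E (RM U).a (U.cls (rn B b)) (U.cls (rn B c)) p at h1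
  change Op U.E (RM U).m (U.cls (rn B a)) (U.cls (rn B b)) q at h2
  change Op U.E (RM U).m (U.cls (rn B a)) (U.cls (rn B c)) s at h3
  change Op U.E (RM U).m (U.cls (rn B a)) p t at h4
  change Op U.E (RM U).a q s t
  rw [op_add] at h1
  rw [op_mul] at h2 h3
  subst h1 h2 h3
  rw [op_mul] at h4
  rw [op_add, h4, mul_add]

end Pool.Agent.JO
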