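import Mathlib
import Pool.Agent.Lib.JO.V.NamA

/-!
# Part II, module RlB (est. 160 lines): the axioms of an ordered field, second part

PROOFS. As in module RlA: write the statement as a formula with the parameters `ω, ℝ, +, ·, ≤, 0, 1` (after `k` variables these are the variables `k, ..., k + 6`,
i.e. `R0.sh k`) and use `all1`, `all2`, `all3`; then `op_add`, `op_mul`, `le_rn`, `cls_rn_iff`, `RM_o`, `RM_i` and the arithmetic of `ℝ`.
`rl_neg`: `v = rn (-t)`; `rl_inv`: `v = rn t⁻¹` (the formula is `.imp (.neg (.eq 0 6)) (.ex (.and (.mem 0 3) (fOp 5 1 0 8)))`, for `all1`: `u` = variable 0, `0` = variable 6,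
`ℝ` = variable 2, `·` = variable 4, `1` = variable 7).
-/

set_option autoImplicit false

namespace Pool.Agent.JO

open Pool.Agent.BPF Pool.Agent.Lib.BVM BSet

variable {B : Type} [CompleteBooleanAlgebra B] (U : Ult B)

theorem rl_add_zero : ∀ u, U.E u (RM U).r → Op U.E (RM U).a u (RM U).o u := by
  intro u hu
  exact all1 (fOp 3 0 6 0)
    (fun U r => (op_add U r 0 _).mpr (by rw [add_zero]; rfl)) U u hu

theorem rl_mul_one : ∀ u, U.E u (RM U).r → Op U.E (RM U).m u (RM U).i u := by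
  intro u hu
  exact all1 (fOp 4 0 7 0)
    (fun U r => (op_mul U r 1 _).mpr (by rw [mul_one]; rfl)) U u hu

theorem rl_neg : ∀ u, U.E u (RM U).r → ∃ v, U.E v (RM U).r ∧ Op U.E (RM U).a u v (RM U).o := by
  intro u hu
  exact all1 (.ex (.and (.mem 0 3) (fOp 4 1 0 7)))
    (fun U r => ⟨U.cls (rn B (-r)), rn_mem U _,
      (op_add U r (-r) _).mpr (by rw [add_neg_cancel]; rfl)⟩) U u hu

theorem rl_inv : ∀ u, U.E u (RM U).r → u ≠ (RM U).o →
    ∃ v, U.E v (RM U).r ∧ Op U.E (RM U).m u v (RM U).i := by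
  intro u hu
  exact all1 (.imp (.neg (.eq 0 6)) (.ex (.and (.mem 0 3) (fOp 5 1 0 8))))
    (fun U r h => ⟨U.cls (rn B r⁻¹), rn_mem U _,
      (op_mul U r r⁻¹ _).mpr (by
        have hr : r ≠ 0 := by
          rintro rfl
          exact h rfl
        rw [mul_inv_cancel₀ hr]; rfl)⟩) U u hu

theorem rl_total : ∀ u v, U.E u (RM U).r → U.E v (RM U).r →
    Rel U.E (RM U).l u v ∨ Rel U.E (RM U).l v u := by
  intro u v hu hv
  exact all2 (.or (fRel 6 0 1) (fRel 6 1 0))
    (fun U r s => (le_total r s).imp (fun h => (le_rn U r s).mpr h) (fun h => (le_rn U s r).mpr h))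
    U u v hu hv

theorem rl_antisymm : ∀ u v, U.E u (RM U).r → U.E v (RM U).r → Rel U.E (RM U).l u v →
    Rel U.E (RM U).l v u → u = v := by
  intro u v hu hv
  exact all2 (.imp (fRel 6 0 1) (.imp (fRel 6 1 0) (.eq 0 1)))
    (fun U r s h1 h2 => (cls_rn_iff U).mpr (le_antisymm ((le_rn U r s).mp h1) ((le_rn U s r).mp h2)))
    U u v hu hv

theorem rl_trans : ∀ u v z, U.E u (RM U).r → U.E v (RM U).r → U.E z (RM U).r →
    Rel U.E (RM U).l u v → Rel U.E (RM U).l v z → Rel U.E (RM U).l u z := by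
  intro u v z hu hv hz
  exact all3 (.imp (fRel 7 0 1) (.imp (fRel 7 1 2) (fRel 7 0 2)))
    (fun U r s t h1 h2 => (le_rn U r t).mpr (((le_rn U r s).mp h1).trans ((le_rn U s t).mp h2)))
    U u v z hu hv hz

theorem rl_le_add : ∀ u v z, U.E u (RM U).r → U.E v (RM U).r → U.E z (RM U).r →
    ∀ p q, Rel U.E (RM U).l u v → Op U.E (RM U).a u z p → Op U.E (RM U).a v z q →
      Rel U.E (RM U).l p q := by
  intro u v z hu hv hz
  exact all3 (.all (.all (.imp (fRel 9 2 3) (.imp (fOp 7 2 4 1) (.imp (fOp 7 3 4 0) (fRel 9 1 0))))))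
    (fun U r s t p q h1 h2 h3 => by
      have h1' := (le_rn U r s).mp h1
      have h2' : p = _ := (op_add U r t p).mp h2
      have h3' : q = _ := (op_add U s t q).mp h3
      subst h2' h3'
      exact (le_rn U (r + t) (s + t)).mpr (by linarith))
    U u v z hu hv hz

theorem rl_le_mul : ∀ u v, U.E u (RM U).r → U.E v (RM U).r → ∀ p, Rel U.E (RM U).l (RM U).o u →
    Rel U.E (RM U).l (RM U).o v → Op U.E (RM U).m u v p → Rel U.E (RM U).l (RM U).o p := by
  intro u v hu hv
  exact all2 (.all (.imp (fRel 7 8 1) (.imp (fRel 7 8 2) (.imp (fOp 6 1 2 0) (fRel 7 8 0)))))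
    (fun U r s p h1 h2 h3 => by
      have h1' := (le_rn U 0 r).mp h1
      have h2' := (le_rn U 0 s).mp h2
      have h3' : p = _ := (op_mul U r s p).mp h3
      subst h3'
      exact (le_rn U 0 (r * s)).mpr (mul_nonneg h1' h2'))
    U u v hu hv

end Pool.Agent.JO
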