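import Mathlib
import Pool.Agent.Lib.JO.V.Frc
import Pool.Agent.Lib.JO.V.RlA
import Pool.Agent.Lib.JO.V.RlB

/-!
# Part II, module RlC (est. 180 lines): completeness of the real numbers of the models

PROOF of `sup_rl`. Let `s = U.cls σ`. Let `b` be the Boolean value (`Df0.of_sat`) of the hypotheses `σ ⊆ ℝ`, `σ ≠ ∅`, `σ` bounded; `U.S b`. The conclusion `Ψ U` is a `Df0`. It is enough that
`Fc b Ψ`, by `fc_dense` (for `q ≤ b`, `q ≠ ⊥` take `j p ≤ q`, `exists_j_le`) it is enough to find for every `p` with `j p ≤ b` some `q ≤ p` with `Fc (j q) Ψ`.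
For `t : ℝ` let `UB t U` be: for all `u ∈ σ`: `u ≤ rn t` (`Df0`). Let `t k` enumerate the rational numbers. `exists_all` with
`Q k q := Fc (j q) (UB (t k)) ∨ Fc (j q) (¬ UB (t k))` (`fc_j_decide`, `fc_j_mono`) gives `q ≤ p` which decides all `UB (t k)`. Let `A = {t ∈ ℚ : Fc (j q) (UB t)}`.
(1) `q' ≤ q`, `Fc (j q') (rn r ∈ σ)`, `t ∈ A` => `r ≤ t` (`fc_j_const`, `le_rn`). (2) `q' ≤ q`, `Fc (j q') (UB r)`, `r < t`, `t` rational => `t ∈ A`: otherwise `Fc (j q) (¬ UB t)`; but `UB r` implies `UB t`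
(transitivity `rl_trans`, `le_rn`), contradiction (`fc_j_const`). (3) `A` is nonempty: below `q` some `q'` forces `UB r` for a real `r` (`fc_j_exm` for the name `rSet` applied to
`∃ m ∈ ℝ, ∀ u ∈ σ, u ≤ m`), use (2). (4) `A` is bounded below: some `q' ≤ q` forces `rn r ∈ σ` (`σ ≠ ∅` and `σ ⊆ ℝ`: `∃ m ∈ rSet, m ∈ σ`, `fc_j_exm`), use (1). Let `c = sInf A`.
`q` forces `UB c`: for all `u ∈ ℝ`: `u ∈ σ → u ≤ rn c` (`fc_all_r`; for `u = rn r` use `fc_j_imp`: if `Fc (j q') (rn r ∈ σ)` then `r ≤ t` for all `t ∈ A` by (1), so `r ≤ c`, `le_rn`).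
`q` forces: for all `v ∈ ℝ`: `UB v → rn c ≤ v` (`fc_all_r`, `fc_j_imp`: if `Fc (j q') (UB r)` then `c ≤ t` for all rational `t > r` by (2), so `c ≤ r`).
The names of the elements of `rSet` are the `chk`s of elements of `WR = ℝ`, `rn B t = chk B t`, by definition.
`isReals_mod`: all axioms.
-/

set_option autoImplicit false

namespace Pool.Agent.JO

open Pool.Agent.BPF Pool.Agent.Lib.BVM BSet

variable {P : Type} [Preorder P]

/-- `m` is an upper bound of `s` -/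
private def UBm {B : Type} [CompleteBooleanAlgebra B] (U : Ult B) (s m : U.Mod) : Prop :=
  ∀ u, U.E u s → Rel U.E (RM U).l u m

/-- the hypotheses of `sup_rl` -/
private def HypS {B : Type} [CompleteBooleanAlgebra B] (U : Ult B) (s : U.Mod) : Prop :=
  Sub U.E s (RM U).r ∧ (∃ u, U.E u s) ∧ ∃ b, U.E b (RM U).r ∧ UBm U s b

/-- the conclusion of `sup_rl` -/
private def ConS {B : Type} [CompleteBooleanAlgebra B] (U : Ult B) (s : U.Mod) : Prop :=
  ∃ b, U.E b (RM U).r ∧ UBm U s b ∧ ∀ c, U.E c (RM U).r → UBm U s c → Rel U.E (RM U).l b c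

/-- the valuation with `σ` and the names of `ω, ℝ, ...` -/
private noncomputable def vS {B : Type} [CompleteBooleanAlgebra B] (σ : BSet B) : ℕ → BSet B := scons σ (vR B)

private theorem df1_UB {B : Type} [CompleteBooleanAlgebra B] (σ : BSet B) :
    Df1 (fun (U : Ult B) m => UBm U (U.cls σ) m) :=
  Df1.of_sat (.all (.imp (.mem 0 2) (fRel 7 0 1))) (vS σ)

private theorem df0_Hyp {B : Type} [CompleteBooleanAlgebra B] (σ : BSet B) :
    Df0 (fun (U : Ult B) => HypS U (U.cls σ)) :=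
  Df0.of_sat (.and (fSub 0 2) (.and (.ex (.mem 0 1)) (.ex (.and (.mem 0 3)
    (.all (.imp (.mem 0 2) (fRel 7 0 1))))))) (vS σ)

private theorem df0_Con {B : Type} [CompleteBooleanAlgebra B] (σ : BSet B) :
    Df0 (fun (U : Ult B) => ConS U (U.cls σ)) :=
  Df0.of_sat (.ex (.and (.mem 0 3) (.and (.all (.imp (.mem 0 2) (fRel 7 0 1)))
    (.all (.imp (.mem 0 4) (.imp (.all (.imp (.mem 0 3) (fRel 8 0 1))) (fRel 7 1 0))))))) (vS σ)

/-- the main step: below every condition which forces the hypotheses there is one which forces the conclusion -/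
private theorem con_dense {S : P → Submodule ℝ (BoundedContinuousFunction ℕ ℝ)} {lim : (ℕ → P) → P}
    (hS : IsSys S lim) (σ : BSet (RP P)) (p : P) (hp : Fc (RP.j p) (fun U => HypS U (U.cls σ))) :
    ∃ q ≤ p, Fc (RP.j q) (fun U => ConS U (U.cls σ)) := by
  classical
  obtain ⟨e, he⟩ : ∃ e : ℕ → ℚ, Function.Surjective e := exists_surjective_nat ℚ
  have dUB : ∀ t : ℝ, Df0 (fun U : Ult (RP P) => UBm U (U.cls σ) (U.cls (rn (RP P) t))) :=
    fun t => Df1.df0 (df1_UB σ) (rn (RP P) t)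
  obtain ⟨q, hqp, hq⟩ := exists_all hS (p := p)
    (Q := fun k q => Fc (RP.j q) (fun U => UBm U (U.cls σ) (U.cls (rn (RP P) (e k)))) ∨
      Fc (RP.j q) (fun U => ¬ UBm U (U.cls σ) (U.cls (rn (RP P) (e k)))))
    (fun k q q' h hQ => hQ.imp (fun h1 => fc_j_mono h1 h) (fun h1 => fc_j_mono h1 h))
    (fun k q _ => fc_j_decide q (dUB (e k)))
  have hypq : ∀ q' ≤ q, Fc (RP.j q') (fun U => HypS U (U.cls σ)) := fun q' h => fc_j_mono hp (h.trans hqp)
  -- the set of the rational upper bounds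
  let A : Set ℝ := {t | ∃ k, t = (e k : ℝ) ∧ Fc (RP.j q) (fun U => UBm U (U.cls σ) (U.cls (rn (RP P) (e k))))}
  have s1 : ∀ q' ≤ q, ∀ r : ℝ, Fc (RP.j q') (fun U => U.E (U.cls (rn (RP P) r)) (U.cls σ)) →
      ∀ t ∈ A, r ≤ t := by
    rintro q' hq' r hr t ⟨k, rfl, hk⟩
    refine fc_j_const (p := q') fun U hU => ?_
    exact (le_rn U r (e k)).1 (fc_j_mono hk hq' U hU _ (hr U hU))
  have s2 : ∀ q' ≤ q, ∀ r : ℝ, Fc (RP.j q') (fun U => UBm U (U.cls σ) (U.cls (rn (RP P) r))) →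
      ∀ t : ℚ, r < t → (t : ℝ) ∈ A := by
    intro q' hq' r hr t ht
    obtain ⟨k, rfl⟩ := he t
    refine ⟨k, rfl, ?_⟩
    rcases hq k with h | h
    · exact h
    · exfalso
      refine fc_j_const (p := q') fun U hU => ?_
      refine fc_j_mono h hq' U hU fun u hu => ?_
      have hur : U.E u (RM U).r := (hypq q' hq' U hU).1 u hu
      exact rl_trans U u _ _ hur (rn_mem U r) (rn_mem U (e k)) (hr U hU u hu) ((le_rn U r (e k)).2 ht.le)
  have s3 : A.Nonempty := by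
    obtain ⟨q', hq', i, _, h⟩ := fc_j_exm (p := q) (df1_UB σ) (rSet (RP P))
      (fun U hU => (hypq q le_rfl U hU).2.2)
    have h' : Fc (RP.j q') (fun U => UBm U (U.cls σ) (U.cls (rn (RP P) (show ℝ from i)))) := h
    obtain ⟨t, ht⟩ := exists_rat_gt (show ℝ from i)
    exact ⟨_, s2 q' hq' _ h' t ht⟩
  have s4 : BddBelow A := by
    obtain ⟨q', hq', i, _, h⟩ := fc_j_exm (p := q) (Df1.mem_left σ) (rSet (RP P))
      (fun U hU => by
        obtain ⟨u, hu⟩ := (hypq q le_rfl U hU).2.1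
        exact ⟨u, (hypq q le_rfl U hU).1 u hu, hu⟩)
    have h' : Fc (RP.j q') (fun U => U.E (U.cls (rn (RP P) (show ℝ from i))) (U.cls σ)) := h
    exact ⟨_, fun t ht => s1 q' hq' _ h' t ht⟩
  have s5 : Fc (RP.j q) (fun U => ∀ m, U.E m (RM U).r →
      (U.E m (U.cls σ) → Rel U.E (U.cls (leN (RP P))) m (U.cls (rn (RP P) (sInf A))))) := by
    refine fc_all_r ((Df1.mem_left σ).imp (Df1.rel_left _ _)) fun r => ?_
    refine fc_j_imp (Df1.df0 (Df1.mem_left σ) _) (Df1.df0 (Df1.rel_left _ _) _) fun q' hq' h U _ => ?_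
    exact (le_rn U r (sInf A)).2 (le_csInf s3 (s1 q' hq' r h))
  have s6 : Fc (RP.j q) (fun U => ∀ m, U.E m (RM U).r →
      (UBm U (U.cls σ) m → Rel U.E (U.cls (leN (RP P))) (U.cls (rn (RP P) (sInf A))) m)) := by
    refine fc_all_r ((df1_UB σ).imp (Df1.rel_right _ _)) fun r => ?_
    refine fc_j_imp (dUB r) (Df1.df0 (Df1.rel_right _ _) _) fun q' hq' h U _ => ?_
    refine (le_rn U (sInf A) r).2 ?_
    refine le_of_forall_gt_imp_ge_of_dense fun a ha => ?_
    obtain ⟨t, h1, h2⟩ := exists_rat_btwn ha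
    exact (csInf_le s4 (s2 q' hq' r h t h1)).trans h2.le
  refine ⟨q, hqp, fun U hU => ?_⟩
  refine ⟨U.cls (rn (RP P) (sInf A)), rn_mem U _, fun u hu => ?_, fun c hc hc' => ?_⟩
  · exact s5 U hU u ((hypq q le_rfl U hU).1 u hu) hu
  · exact s6 U hU c hc hc'

theorem sup_rl {S : P → Submodule ℝ (BoundedContinuousFunction ℕ ℝ)} {lim : (ℕ → P) → P} (hS : IsSys S lim)
    (U : Ult (RP P)) (s : U.Mod) (h1 : Sub U.E s (RM U).r) (h2 : ∃ u, U.E u s)
    (h3 : ∃ b, U.E b (RM U).r ∧ ∀ u, U.E u s → Rel U.E (RM U).l u b) :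
    ∃ b, U.E b (RM U).r ∧ (∀ u, U.E u s → Rel U.E (RM U).l u b) ∧
      ∀ c, U.E c (RM U).r → (∀ u, U.E u s → Rel U.E (RM U).l u c) → Rel U.E (RM U).l b c := by
  obtain ⟨σ, rfl⟩ := U.exists_cls s
  obtain ⟨b, hb⟩ := df0_Hyp (B := RP P) σ
  have h : Fc b (fun U : Ult (RP P) => ConS U (U.cls σ)) :=
    fc_j_below (df0_Con σ) fun p hp => con_dense hS σ p fun U hU => (hb U).1 (Ult.mono U hp hU)
  exact h U ((hb U).2 ⟨h1, h2, h3⟩)

theorem isReals_mod {S : P → Submodule ℝ (BoundedContinuousFunction ℕ ℝ)} {lim : (ℕ → P) → P} (hS : IsSys S lim)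
    (U : Ult (RP P)) : IsReals U.E (RM U) where
  zero_mem := rn_mem U 0
  one_mem := rn_mem U 1
  zero_ne_one := rl_ne U
  add_fn := rl_add_fn U
  mul_fn := rl_mul_fn U
  add_comm := rl_add_comm U
  mul_comm := rl_mul_comm U
  add_assoc := rl_add_assoc U
  mul_assoc := rl_mul_assoc U
  distrib := rl_distrib U
  add_zero := rl_add_zero U
  mul_one := rl_mul_one U
  neg := rl_neg U
  inv := rl_inv U
  total := rl_total U
  antisymm := rl_antisymm U
  trans := rl_trans U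
  le_add := rl_le_add U
  le_mul := rl_le_mul U
  sup := sup_rl hS U

end Pool.Agent.JO
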