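import Mathlib
import Pool.Agent.Lib.JO.V.Xn

/-!
# Part II, module Spc (est. 140 lines): the space is a linear space of bounded functions

PROOFS. All four statements have Boolean values (`Df0.of_sat` with the formulas of `V/Fml.lean`, the assignment `scons (xN S) (vR _)`, so that `X` = variable 0 and the
parameters `ω, ℝ, ...` are `R0.sh 1`; conversions by `Iff.rfl` or `exact`), so by `fc_j_top` it is enough that they are forced by all `RP.j p`.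
`x_nonempty`: `0 ∈ S p`, `mem_xN`. `x_fn`: `all_x`: for `x ∈ S q`: `isFn_fnm`, and the bound `rn ‖x‖` (`rn_mem`, `bd_fnm`, `BoundedContinuousFunction.norm_coe_le_norm`).
`x_add`: `all_x` twice (the property of `f`: `∀ g ∈ X, ∃ h ∈ X, SumF f g h`, `Df1.of_sat`): `q ≤ p`, `x ∈ S q`, `q' ≤ q`, `y ∈ S q'`: `x ∈ S q'` by `hS.mono`, `h = x + y`: `mem_xN`, `sumF_fnm`.
`x_smul`: `fc_all_r` (`Φ U c := ∀ f ∈ X, ∃ h ∈ X, SmulF c f h`), `all_x`, `h = t • x`, `smulF_fnm`.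
-/

set_option autoImplicit false

namespace Pool.Agent.JO

open Pool.Agent.BPF Pool.Agent.Lib.BVM BSet
open scoped BoundedContinuousFunction

variable {P : Type} [Preorder P] {S : P → Submodule ℝ (ℕ →ᵇ ℝ)} {lim : (ℕ → P) → P}

private theorem df0_congr {B : Type} [CompleteBooleanAlgebra B] {Φ Ψ : Ult B → Prop} (h : Df0 Φ)
    (e : ∀ U, Φ U ↔ Ψ U) : Df0 Ψ := by
  obtain ⟨b, hb⟩ := h
  exact ⟨b, fun U => (hb U).trans (e U)⟩

private theorem df1_congr {B : Type} [CompleteBooleanAlgebra B] {Φ Ψ : (U : Ult B) → U.Mod → Prop}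
    (h : Df1 Φ) (e : ∀ U m, Φ U m ↔ Ψ U m) : Df1 Ψ := by
  obtain ⟨b, hb, hb'⟩ := h
  exact ⟨b, hb, fun U x => (hb' U x).trans (e U _)⟩

theorem x_nonempty (U : Ult (RP P)) : ∃ f, U.E f (U.cls (xN S)) := by
  have hΦ : Df0 (fun U : Ult (RP P) => ∃ f, U.E f (U.cls (xN S))) :=
    Df0.of_sat (.ex (.mem 0 1)) (fun _ => xN S)
  exact fc_j_top hΦ (fun p => ⟨p, le_rfl, fun U hU => ⟨_, mem_xN (S p).zero_mem U hU⟩⟩) U

theorem x_fn (hS : IsSys S lim) (U : Ult (RP P)) : ∀ f, U.E f (U.cls (xN S)) →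
    IsFn U.E f (RM U).w (RM U).r ∧ ∃ s, U.E s (RM U).r ∧ Bd U.E (RM U) f s := by
  have hΦ : Df0 (fun U : Ult (RP P) => ∀ f, U.E f (U.cls (xN S)) →
      IsFn U.E f (RM U).w (RM U).r ∧ ∃ s, U.E s (RM U).r ∧ Bd U.E (RM U) f s) :=
    df0_congr (Df0.of_sat (.all (.imp (.mem 0 1) (.and (fIsFn 0 2 3)
      (.ex (.and (.mem 0 4) (fBd (R0.sh 3) 1 0)))))) (scons (xN S) (vR (RP P))))
      (fun U => forall_congr' fun f => imp_congr Iff.rfl (and_congr (sat_fIsFn U.E _ _ _ _) Iff.rfl))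
  have hΨ : Df1 (fun (U : Ult (RP P)) f => IsFn U.E f (RM U).w (RM U).r ∧
      ∃ s, U.E s (RM U).r ∧ Bd U.E (RM U) f s) :=
    Df1.and (df1_congr (Df1.of_sat (fIsFn 0 1 2) (vR (RP P))) (fun U f => sat_fIsFn U.E _ _ _ _))
      (Df1.of_sat (.ex (.and (.mem 0 3) (fBd (R0.sh 2) 1 0))) (vR (RP P)))
  refine fc_j_top hΦ (fun p => ⟨p, le_rfl, ?_⟩) U
  refine all_x hS hΨ fun q _ x _ U _ => ⟨isFn_fnm U _, U.cls (rn (RP P) ‖x‖), rn_mem U _, ?_⟩
  rw [bd_fnm]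
  exact fun n => x.norm_coe_le_norm n

theorem x_add (hS : IsSys S lim) (U : Ult (RP P)) : ∀ f g, U.E f (U.cls (xN S)) →
    U.E g (U.cls (xN S)) → ∃ h, U.E h (U.cls (xN S)) ∧ SumF U.E (RM U) f g h := by
  have hΦ : Df0 (fun U : Ult (RP P) => ∀ f, U.E f (U.cls (xN S)) → ∀ g, U.E g (U.cls (xN S)) →
      ∃ h, U.E h (U.cls (xN S)) ∧ SumF U.E (RM U) f g h) :=
    Df0.of_sat (.all (.imp (.mem 0 1) (.all (.imp (.mem 0 2)
      (.ex (.and (.mem 0 3) (fSumF (R0.sh 4) 2 1 0))))))) (scons (xN S) (vR (RP P)))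
  have hΨ : Df1 (fun (U : Ult (RP P)) f => ∀ g, U.E g (U.cls (xN S)) →
      ∃ h, U.E h (U.cls (xN S)) ∧ SumF U.E (RM U) f g h) :=
    Df1.of_sat (.all (.imp (.mem 0 2)
      (.ex (.and (.mem 0 3) (fSumF (R0.sh 4) 2 1 0))))) (scons (xN S) (vR (RP P)))
  have key : ∀ f, U.E f (U.cls (xN S)) → ∀ g, U.E g (U.cls (xN S)) →
      ∃ h, U.E h (U.cls (xN S)) ∧ SumF U.E (RM U) f g h := by
    refine fc_j_top hΦ (fun p => ⟨p, le_rfl, ?_⟩) U
    refine all_x hS hΨ fun q _ x hx => ?_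
    have hΘ : Df1 (fun (U : Ult (RP P)) g => ∃ h, U.E h (U.cls (xN S)) ∧
        SumF U.E (RM U) (U.cls (xf P x)) g h) :=
      Df1.of_sat (.ex (.and (.mem 0 3) (fSumF (R0.sh 4) 2 1 0)))
        (scons (xf P x) (scons (xN S) (vR (RP P))))
    refine all_x hS hΘ fun q' hq' y hy U hU => ?_
    refine ⟨U.cls (xf P (x + y)), mem_xN ((S q').add_mem (hS.mono _ _ hq' hx) hy) U hU, ?_⟩
    rw [sumF_fnm]
    exact fun n => rfl
  exact fun f g hf hg => key f hf g hg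

theorem x_smul (hS : IsSys S lim) (U : Ult (RP P)) : ∀ c f, U.E c (RM U).r →
    U.E f (U.cls (xN S)) → ∃ h, U.E h (U.cls (xN S)) ∧ SmulF U.E (RM U) c f h := by
  have hΦ : Df0 (fun U : Ult (RP P) => ∀ c, U.E c (RM U).r → ∀ f, U.E f (U.cls (xN S)) →
      ∃ h, U.E h (U.cls (xN S)) ∧ SmulF U.E (RM U) c f h) :=
    Df0.of_sat (.all (.imp (.mem 0 3) (.all (.imp (.mem 0 2)
      (.ex (.and (.mem 0 3) (fSmulF (R0.sh 4) 2 1 0))))))) (scons (xN S) (vR (RP P)))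
  have hΨ : Df1 (fun (U : Ult (RP P)) c => ∀ f, U.E f (U.cls (xN S)) →
      ∃ h, U.E h (U.cls (xN S)) ∧ SmulF U.E (RM U) c f h) :=
    Df1.of_sat (.all (.imp (.mem 0 2)
      (.ex (.and (.mem 0 3) (fSmulF (R0.sh 4) 2 1 0))))) (scons (xN S) (vR (RP P)))
  have key : ∀ c, U.E c (RM U).r → ∀ f, U.E f (U.cls (xN S)) →
      ∃ h, U.E h (U.cls (xN S)) ∧ SmulF U.E (RM U) c f h := by
    refine fc_j_top hΦ (fun p => ⟨p, le_rfl, ?_⟩) U
    refine fc_all_r hΨ fun t => ?_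
    have hΘ : Df1 (fun (U : Ult (RP P)) f => ∃ h, U.E h (U.cls (xN S)) ∧
        SmulF U.E (RM U) (U.cls (rn (RP P) t)) f h) :=
      Df1.of_sat (.ex (.and (.mem 0 3) (fSmulF (R0.sh 4) 2 1 0)))
        (scons (rn (RP P) t) (scons (xN S) (vR (RP P))))
    refine all_x hS hΘ fun q' hq' y hy U hU => ?_
    refine ⟨U.cls (xf P (t • y)), mem_xN ((S q').smul_mem t hy) U hU, ?_⟩
    rw [smulF_fnm]
    exact fun n => rfl
  exact fun c f hc hf => key c hc f hf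

end Pool.Agent.JO
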