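import Mathlib
import Pool.Agent.Lib.JO.V.Xn

/-!
# Part II, module TnA (est. 160 lines): the name of the bijection

`D` is dense below `p₀ ≥ q₁`, `q₁ ∈ D`, `T` is a coherent family of linear bijections of the `S r`, `r ∈ D`, `r ≤ q₁` (`IsBijFam`, `IsDom`: `JO/Ifc.lean`).

PROOFS. `all_xD`: `all_x`: let `q ≤ q₁`, `x ∈ S q`; `Fc (j q) (Φ (xf x))` by `fc_j_dense` (`hΦ.df0`): for `q' ≤ q` take `r ≤ q'` in `D` (`hD.dense`, `q' ≤ q₁ ≤ p₀`), `x ∈ S r` (`hS.mono`), `r ≤ q₁`.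
`rel_tN`: by `le_of_forall_ult`-arguments: let `U.S (j r)`, `m = U.cls y`. `rel_iff`, `bMem_mk`, `bEq_opair`: the value is `V = ⨆ i, j i.1 ⊓ (bEq (xf x) (xf i.2) ⊓ bEq y (xf (T i.1 i.2)))`, and we need
`U.S V ↔ U.S (bEq y (xf (T r x)))` (`U.cls_eq_iff`). `←`: the term `i = (r, x)` is `j r ⊓ (⊤ ⊓ bEq y (xf (T r x)))` (`le_iSup`, `Ult.mono`, `U.inf_iff`).
`→`: `V ⊓ j r ≤ bEq y (xf (T r x))`: distribute (`iSup_inf_eq`, `iSup_le`); for a term `i = (s, z)`: if `z ≠ x` then `bEq (xf x) (xf z) = ⊥` (`fnm_ne`, `DFunLike.ne_iff`); if `z = x`: if `j s ⊓ j r = ⊥` the term is `⊥`; otherwise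
`RP.j_inf_j_ne_bot` gives `t ≤ s`, `t ≤ r`, and `t' ≤ t` in `D` (`hD.dense`); `T t' x = T s x`, `T t' x = T r x` (`hT.coh`), so `T s x = T r x` and the term is `≤ bEq y (xf (T r x))`.
`tN_fn`: first part: `fc_j_allm` for the name `tN` (the property `∃ u v, u ∈ X ∧ v ∈ X ∧ IsPair m u v`, `Df1.of_sat`): for the generator `(r, x)` and `q ≤ q₁`, `j q ≤ j r`: in the models below `j q` take `u = xf x`, `v = xf (T r x)`
(`mem_xN`, `Ult.mono`, `hT.maps`, `isPair_opair`). Second part: `all_xD` and `rel_tN`, `v = xf (T r x)`.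
-/

set_option autoImplicit false

namespace Pool.Agent.JO

open Pool.Agent.BPF Pool.Agent.Lib.BVM BSet
open scoped BoundedContinuousFunction

variable {P : Type} [Preorder P] {S : P → Submodule ℝ (ℕ →ᵇ ℝ)} {lim : (ℕ → P) → P}

/-- the name of the bijection -/
noncomputable def tN (S : P → Submodule ℝ (ℕ →ᵇ ℝ)) (D : Set P) (q₁ : P) (T : P → (ℕ →ᵇ ℝ) → (ℕ →ᵇ ℝ)) :
    BSet (RP P) :=
  mk (Σ r : {r : P // r ∈ D ∧ r ≤ q₁}, S r.1)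
    (fun x => opair (xf P (x.2 : ℕ →ᵇ ℝ)) (xf P (T x.1.1 (x.2 : ℕ →ᵇ ℝ)))) (fun x => RP.j x.1.1)

theorem all_xD (hS : IsSys S lim) {p₀ q₁ : P} {D : Set P} (hD : IsDom lim p₀ D) (hq : q₁ ∈ D)
    {Φ : (U : Ult (RP P)) → U.Mod → Prop} (hΦ : Df1 Φ)
    (h : ∀ r ∈ D, r ≤ q₁ → ∀ x ∈ S r, Fc (RP.j r) (fun U => Φ U (U.cls (xf P x)))) :
    Fc (RP.j q₁) (fun U => ∀ m, U.E m (U.cls (xN S)) → Φ U m) := by
  refine all_x hS hΦ fun q hq' x hx => fc_j_dense (hΦ.df0 _) fun q' hq'' => ?_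
  obtain ⟨r, hr, hrD⟩ := hD.dense q' (hq''.trans (hq'.trans (hD.le _ hq)))
  exact ⟨r, hr, h r hrD (hr.trans (hq''.trans hq')) x (hS.mono _ _ (hr.trans hq'') hx)⟩

theorem rel_tN (hS : IsSys S lim) {p₀ q₁ : P} {D : Set P} (hD : IsDom lim p₀ D)
    {T : P → (ℕ →ᵇ ℝ) → (ℕ →ᵇ ℝ)} (hT : IsBijFam S D q₁ T) {r : P} (hr : r ∈ D) (hrq : r ≤ q₁)
    {x : ℕ →ᵇ ℝ} (hx : x ∈ S r) (U : Ult (RP P)) (hU : U.S (RP.j r)) (m : U.Mod) :
    Rel U.E (U.cls (tN S D q₁ T)) (U.cls (xf P x)) m ↔ m = U.cls (xf P (T r x)) := by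
  obtain ⟨y, rfl⟩ := U.exists_cls m
  rw [rel_iff, U.cls_eq_iff]
  have hV : bMem (opair (xf P x) y) (tN S D q₁ T) =
      ⨆ i : (Σ r : {r : P // r ∈ D ∧ r ≤ q₁}, S r.1), RP.j i.1.1 ⊓
        (bEq (xf P x) (xf P (i.2 : ℕ →ᵇ ℝ)) ⊓ bEq y (xf P (T i.1.1 (i.2 : ℕ →ᵇ ℝ)))) := by
    unfold tN
    rw [bMem_mk]
    refine iSup_congr fun i => ?_
    rw [bEq_opair]
  rw [hV]
  constructor
  · intro h
    have h1 : (⨆ i : (Σ r : {r : P // r ∈ D ∧ r ≤ q₁}, S r.1), RP.j i.1.1 ⊓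
        (bEq (xf P x) (xf P (i.2 : ℕ →ᵇ ℝ)) ⊓ bEq y (xf P (T i.1.1 (i.2 : ℕ →ᵇ ℝ))))) ⊓ RP.j r ≤
        bEq y (xf P (T r x)) := by
      rw [iSup_inf_eq]
      refine iSup_le ?_
      rintro ⟨⟨s, hs, hsq⟩, ⟨z, hz⟩⟩
      by_cases hzx : x = z
      · subst hzx
        by_cases hb : RP.j s ⊓ RP.j r = ⊥
        · refine le_trans ?_ bot_le
          rw [← hb]
          exact le_inf (inf_le_left.trans inf_le_left) inf_le_right
        · obtain ⟨t, hts, htr⟩ := RP.j_inf_j_ne_bot hb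
          obtain ⟨t', ht', htD⟩ := hD.dense t (hts.trans (hD.le _ hs))
          have e1 := hT.coh s hs hsq t' htD (ht'.trans hts) x hz
          have e2 := hT.coh r hr hrq t' htD (ht'.trans htr) x hx
          have e3 : T s x = T r x := by rw [← e1, e2]
          refine (inf_le_left.trans inf_le_right).trans (inf_le_right.trans ?_)
          show bEq y (xf P (T s x)) ≤ _
          rw [e3]
      · have hne : bEq (xf P x) (xf P z) = ⊥ := fnm_ne fun he => hzx (BoundedContinuousFunction.ext fun n => congrFun he n)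
        refine (inf_le_left.trans inf_le_right).trans (inf_le_left.trans ?_)
        show bEq (xf P x) (xf P z) ≤ _
        rw [hne]
        exact bot_le
    exact Ult.mono U h1 (U.inf_iff.2 ⟨h, hU⟩)
  · intro h
    refine Ult.mono U (le_iSup (fun i : (Σ r : {r : P // r ∈ D ∧ r ≤ q₁}, S r.1) => RP.j i.1.1 ⊓
        (bEq (xf P x) (xf P (i.2 : ℕ →ᵇ ℝ)) ⊓ bEq y (xf P (T i.1.1 (i.2 : ℕ →ᵇ ℝ))))) ⟨⟨r, hr, hrq⟩, ⟨x, hx⟩⟩) ?_
    rw [U.inf_iff, U.inf_iff]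
    refine ⟨hU, ?_, h⟩
    rw [← U.cls_eq_iff]

theorem tN_fn (hS : IsSys S lim) {p₀ q₁ : P} {D : Set P} (hD : IsDom lim p₀ D) (hq : q₁ ∈ D)
    {T : P → (ℕ →ᵇ ℝ) → (ℕ →ᵇ ℝ)} (hT : IsBijFam S D q₁ T) :
    Fc (RP.j q₁) (fun U => IsFn U.E (U.cls (tN S D q₁ T)) (U.cls (xN S)) (U.cls (xN S))) := by
  have h1 : Fc (RP.j q₁) (fun U => ∀ m, U.E m (U.cls (tN S D q₁ T)) →
      ∃ u v, U.E u (U.cls (xN S)) ∧ U.E v (U.cls (xN S)) ∧ IsPair U.E m u v) := by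
    refine fc_j_allm (Φ := fun U m => ∃ u v, U.E u (U.cls (xN S)) ∧ U.E v (U.cls (xN S)) ∧ IsPair U.E m u v)
      (Df1.of_sat (.ex (.ex (.and (.mem 1 3) (.and (.mem 0 3) (fPair 2 1 0))))) (fun _ => xN S)) _ ?_
    rintro ⟨⟨r, hr, hrq⟩, ⟨x, hx⟩⟩ q _ hqr U hU
    have hUr : U.S (RP.j r) := Ult.mono U hqr hU
    exact ⟨U.cls (xf P x), U.cls (xf P (T r x)), mem_xN hx U hUr, mem_xN (hT.maps r hr hrq x hx) U hUr,
      isPair_opair U _ _⟩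
  have h2 : Fc (RP.j q₁) (fun U => ∀ m, U.E m (U.cls (xN S)) →
      ∃ v, U.E v (U.cls (xN S)) ∧ ∀ t, Rel U.E (U.cls (tN S D q₁ T)) m t ↔ t = v) := by
    refine all_xD hS hD hq (Φ := fun U m => ∃ v, U.E v (U.cls (xN S)) ∧
      ∀ t, Rel U.E (U.cls (tN S D q₁ T)) m t ↔ t = v)
      (Df1.of_sat (.ex (.and (.mem 0 3) (.all (.iff (fRel 3 2 0) (.eq 0 1))))) (scons (tN S D q₁ T) (fun _ => xN S))) ?_
    intro r hr hrq x hx U hU
    exact ⟨U.cls (xf P (T r x)), mem_xN (hT.maps r hr hrq x hx) U hU, fun t => rel_tN hS hD hT hr hrq hx U hU t⟩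
  exact fun U hU => ⟨h1 U hU, h2 U hU⟩

end Pool.Agent.JO
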