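import Mathlib
import Pool.Agent.Lib.JO.V.TnA

/-!
# Part II, module TnB (est. 170 lines): the bijection is linear

PROOFS. For each of the four statements use `all_xD` for the first variable and `all_xD` with `r` in place of `q₁` for the further variables running over the space, so that all the elements `x`, `y`, `z` are in `S r` for one `r ∈ D`
(`hS.mono`), and `rel_tN` for `r`, `Fc.mono`/`Ult.mono` (`RP.j_mono`). The properties are `Df1` by `Df1.of_sat` (formulas `fLinj`, `fLsurj`, `fLadd`, `fLsmul` without the first quantifier(s); assignment: the variables already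
fixed, `xN S`, `tN ..`, then `vR`).
`tN_inj`: `g` is arbitrary: `g = xf (T r x)` and `g = xf (T r y)` (`rel_tN`), so `T r x = T r y` (`cls_xf_iff`) and `x = y` (`hT.inj`).
`tN_surj`: for `y ∈ S r` take `x ∈ S r` with `T r x = y` (`hT.surj`).
`tN_add`: `x, y, z ∈ S r`; `SumF (xf x) (xf y) (xf z)` gives `x + y = z` (`sumF_fnm`, `BoundedContinuousFunction.ext`); `f' = xf (T r x)` ... ; `T r z = T r x + T r y` (`hT.add`); `sumF_fnm`. If `x + y ≠ z` the hypothesis `SumF` fails in all models.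
`tN_smul`: `fc_all_r` for `c`, then as before (`smulF_fnm`, `hT.smul`).
`tN_bij`: the structure `IsLinBij` from `tN_fn` (module TnA) and the four statements.
-/

set_option autoImplicit false

namespace Pool.Agent.JO

open Pool.Agent.BPF Pool.Agent.Lib.BVM BSet
open scoped BoundedContinuousFunction

variable {P : Type} [Preorder P] {S : P → Submodule ℝ (ℕ →ᵇ ℝ)} {lim : (ℕ → P) → P}

theorem tN_inj (hS : IsSys S lim) {p₀ q₁ : P} {D : Set P} (hD : IsDom lim p₀ D) (hq : q₁ ∈ D)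
    {T : P → (ℕ →ᵇ ℝ) → (ℕ →ᵇ ℝ)} (hT : IsBijFam S D q₁ T) :
    Fc (RP.j q₁) (fun U => ∀ f f' g, U.E f (U.cls (xN S)) → U.E f' (U.cls (xN S)) →
      Rel U.E (U.cls (tN S D q₁ T)) f g → Rel U.E (U.cls (tN S D q₁ T)) f' g → f = f') := by
  have h1 : Fc (RP.j q₁) (fun U => ∀ m, U.E m (U.cls (xN S)) → ∀ f' g, U.E f' (U.cls (xN S)) →
      Rel U.E (U.cls (tN S D q₁ T)) m g → Rel U.E (U.cls (tN S D q₁ T)) f' g → m = f') := by
    refine all_xD hS hD hq (Φ := fun U m => ∀ f' g, U.E f' (U.cls (xN S)) →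
      Rel U.E (U.cls (tN S D q₁ T)) m g → Rel U.E (U.cls (tN S D q₁ T)) f' g → m = f')
      (Df1.of_sat (.all (.all (.imp (.mem 1 4) (.imp (fRel 3 2 0) (.imp (fRel 3 1 0) (.eq 2 1))))))
        (scons (tN S D q₁ T) (fun _ => xN S))) ?_
    intro r hr hrq x hx
    have h2 : Fc (RP.j r) (fun U => ∀ m, U.E m (U.cls (xN S)) → ∀ g,
        Rel U.E (U.cls (tN S D q₁ T)) (U.cls (xf P x)) g →
        Rel U.E (U.cls (tN S D q₁ T)) m g → U.cls (xf P x) = m) := by
      refine all_xD hS hD hr (Φ := fun U m => ∀ g, Rel U.E (U.cls (tN S D q₁ T)) (U.cls (xf P x)) g →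
        Rel U.E (U.cls (tN S D q₁ T)) m g → U.cls (xf P x) = m)
        (Df1.of_sat (.all (.imp (fRel 2 3 0) (.imp (fRel 2 1 0) (.eq 3 1))))
          (scons (tN S D q₁ T) (fun _ => xf P x))) ?_
      intro s hs hsr y hy U hU g hg hg'
      have hxs : x ∈ S s := hS.mono _ _ hsr hx
      rw [rel_tN hS hD hT hs (hsr.trans hrq) hxs U hU] at hg
      rw [rel_tN hS hD hT hs (hsr.trans hrq) hy U hU, hg] at hg'
      rw [cls_xf_iff] at hg'
      rw [hT.inj s hs (hsr.trans hrq) x hxs y hy hg']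
    exact fun U hU f' g hf' hg hg' => h2 U hU f' hf' g hg hg'
  exact fun U hU f f' g hf hf' hg hg' => h1 U hU f hf f' g hf' hg hg'

theorem tN_surj (hS : IsSys S lim) {p₀ q₁ : P} {D : Set P} (hD : IsDom lim p₀ D) (hq : q₁ ∈ D)
    {T : P → (ℕ →ᵇ ℝ) → (ℕ →ᵇ ℝ)} (hT : IsBijFam S D q₁ T) :
    Fc (RP.j q₁) (fun U => ∀ g, U.E g (U.cls (xN S)) →
      ∃ f, U.E f (U.cls (xN S)) ∧ Rel U.E (U.cls (tN S D q₁ T)) f g) := by
  refine all_xD hS hD hq (Φ := fun U g => ∃ f, U.E f (U.cls (xN S)) ∧ Rel U.E (U.cls (tN S D q₁ T)) f g)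
    (Df1.of_sat (.ex (.and (.mem 0 3) (fRel 2 0 1))) (scons (tN S D q₁ T) (fun _ => xN S))) ?_
  intro r hr hrq y hy U hU
  obtain ⟨x, hx, hxy⟩ := hT.surj r hr hrq y hy
  exact ⟨U.cls (xf P x), mem_xN hx U hU, (rel_tN hS hD hT hr hrq hx U hU _).2 (by rw [hxy])⟩

theorem tN_add (hS : IsSys S lim) {p₀ q₁ : P} {D : Set P} (hD : IsDom lim p₀ D) (hq : q₁ ∈ D)
    {T : P → (ℕ →ᵇ ℝ) → (ℕ →ᵇ ℝ)} (hT : IsBijFam S D q₁ T) :
    Fc (RP.j q₁) (fun U => ∀ f g h, U.E f (U.cls (xN S)) → U.E g (U.cls (xN S)) → U.E h (U.cls (xN S)) →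
      SumF U.E (RM U) f g h → ∀ f' g' h', Rel U.E (U.cls (tN S D q₁ T)) f f' →
        Rel U.E (U.cls (tN S D q₁ T)) g g' → Rel U.E (U.cls (tN S D q₁ T)) h h' →
          SumF U.E (RM U) f' g' h') := by
  have h1 : Fc (RP.j q₁) (fun U => ∀ m, U.E m (U.cls (xN S)) → ∀ g h, U.E g (U.cls (xN S)) →
      U.E h (U.cls (xN S)) → SumF U.E (RM U) m g h → ∀ f' g' h', Rel U.E (U.cls (tN S D q₁ T)) m f' →
        Rel U.E (U.cls (tN S D q₁ T)) g g' → Rel U.E (U.cls (tN S D q₁ T)) h h' →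
          SumF U.E (RM U) f' g' h') := by
    refine all_xD hS hD hq (Φ := fun U m => ∀ g h, U.E g (U.cls (xN S)) →
      U.E h (U.cls (xN S)) → SumF U.E (RM U) m g h → ∀ f' g' h', Rel U.E (U.cls (tN S D q₁ T)) m f' →
        Rel U.E (U.cls (tN S D q₁ T)) g g' → Rel U.E (U.cls (tN S D q₁ T)) h h' →
          SumF U.E (RM U) f' g' h')
      (Df1.of_sat (.all (.all (.imp (.mem 1 4) (.imp (.mem 0 4) (.imp (fSumF (R0.sh 5) 2 1 0)
        (.all (.all (.all (.imp (fRel 6 5 2) (.imp (fRel 6 4 1) (.imp (fRel 6 3 0)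
          (fSumF (R0.sh 8) 2 1 0))))))))))))
        (scons (tN S D q₁ T) (scons (xN S) (vR (RP P))))) ?_
    intro r hr hrq x hx
    have h2 : Fc (RP.j r) (fun U => ∀ m, U.E m (U.cls (xN S)) → ∀ h,
        U.E h (U.cls (xN S)) → SumF U.E (RM U) (U.cls (xf P x)) m h → ∀ f' g' h',
        Rel U.E (U.cls (tN S D q₁ T)) (U.cls (xf P x)) f' →
        Rel U.E (U.cls (tN S D q₁ T)) m g' → Rel U.E (U.cls (tN S D q₁ T)) h h' →
          SumF U.E (RM U) f' g' h') := by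
      refine all_xD hS hD hr (Φ := fun U m => ∀ h,
        U.E h (U.cls (xN S)) → SumF U.E (RM U) (U.cls (xf P x)) m h → ∀ f' g' h',
        Rel U.E (U.cls (tN S D q₁ T)) (U.cls (xf P x)) f' →
        Rel U.E (U.cls (tN S D q₁ T)) m g' → Rel U.E (U.cls (tN S D q₁ T)) h h' →
          SumF U.E (RM U) f' g' h')
        (Df1.of_sat (.all (.imp (.mem 0 3) (.imp (fSumF (R0.sh 5) 4 1 0)
          (.all (.all (.all (.imp (fRel 5 7 2) (.imp (fRel 5 4 1) (.imp (fRel 5 3 0)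
            (fSumF (R0.sh 8) 2 1 0))))))))))
          (scons (tN S D q₁ T) (scons (xN S) (scons (xf P x) (vR (RP P)))))) ?_
      intro s hs hsr y hy
      have h3 : Fc (RP.j s) (fun U => ∀ m, U.E m (U.cls (xN S)) →
          SumF U.E (RM U) (U.cls (xf P x)) (U.cls (xf P y)) m → ∀ f' g' h',
          Rel U.E (U.cls (tN S D q₁ T)) (U.cls (xf P x)) f' →
          Rel U.E (U.cls (tN S D q₁ T)) (U.cls (xf P y)) g' → Rel U.E (U.cls (tN S D q₁ T)) m h' →
            SumF U.E (RM U) f' g' h') := by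
        refine all_xD hS hD hs (Φ := fun U m =>
          SumF U.E (RM U) (U.cls (xf P x)) (U.cls (xf P y)) m → ∀ f' g' h',
          Rel U.E (U.cls (tN S D q₁ T)) (U.cls (xf P x)) f' →
          Rel U.E (U.cls (tN S D q₁ T)) (U.cls (xf P y)) g' → Rel U.E (U.cls (tN S D q₁ T)) m h' →
            SumF U.E (RM U) f' g' h')
          (Df1.of_sat (.imp (fSumF (R0.sh 4) 2 3 0)
            (.all (.all (.all (.imp (fRel 4 5 2) (.imp (fRel 4 6 1) (.imp (fRel 4 3 0)
              (fSumF (R0.sh 7) 2 1 0))))))))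
            (scons (tN S D q₁ T) (scons (xf P x) (scons (xf P y) (vR (RP P)))))) ?_
        intro t ht hts z hz U hU hsum f' g' h' hf' hg' hh'
        have htq : t ≤ q₁ := hts.trans (hsr.trans hrq)
        have hyt : y ∈ S t := hS.mono _ _ hts hy
        have hxt : x ∈ S t := hS.mono _ _ (hts.trans hsr) hx
        rw [rel_tN hS hD hT ht htq hxt U hU] at hf'
        rw [rel_tN hS hD hT ht htq hyt U hU] at hg'
        rw [rel_tN hS hD hT ht htq hz U hU] at hh'
        rw [hf', hg', hh', sumF_fnm]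
        rw [sumF_fnm] at hsum
        have hz' : z = x + y := BoundedContinuousFunction.ext fun n => (hsum n).symm
        intro n
        rw [hz', hT.add t ht htq x hxt y hyt]
        rfl
      exact fun U hU h hh hs' f' g' h' => h3 U hU h hh hs' f' g' h'
    exact fun U hU g h hg hh hs' f' g' h' => h2 U hU g hg h hh hs' f' g' h'
  exact fun U hU f g h hf hg hh hs' f' g' h' => h1 U hU f hf g h hg hh hs' f' g' h'

theorem tN_smul (hS : IsSys S lim) {p₀ q₁ : P} {D : Set P} (hD : IsDom lim p₀ D) (hq : q₁ ∈ D)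
    {T : P → (ℕ →ᵇ ℝ) → (ℕ →ᵇ ℝ)} (hT : IsBijFam S D q₁ T) :
    Fc (RP.j q₁) (fun U => ∀ c f h, U.E c (RM U).r → U.E f (U.cls (xN S)) → U.E h (U.cls (xN S)) →
      SmulF U.E (RM U) c f h → ∀ f' h', Rel U.E (U.cls (tN S D q₁ T)) f f' →
        Rel U.E (U.cls (tN S D q₁ T)) h h' → SmulF U.E (RM U) c f' h') := by
  have h0 : Fc (RP.j q₁) (fun U => ∀ c, U.E c (RM U).r → ∀ f h, U.E f (U.cls (xN S)) → U.E h (U.cls (xN S)) →
      SmulF U.E (RM U) c f h → ∀ f' h', Rel U.E (U.cls (tN S D q₁ T)) f f' →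
        Rel U.E (U.cls (tN S D q₁ T)) h h' → SmulF U.E (RM U) c f' h') := by
    refine fc_all_r (Φ := fun U c => ∀ f h, U.E f (U.cls (xN S)) → U.E h (U.cls (xN S)) →
      SmulF U.E (RM U) c f h → ∀ f' h', Rel U.E (U.cls (tN S D q₁ T)) f f' →
        Rel U.E (U.cls (tN S D q₁ T)) h h' → SmulF U.E (RM U) c f' h')
      (Df1.of_sat (.all (.all (.imp (.mem 1 4) (.imp (.mem 0 4) (.imp (fSmulF (R0.sh 5) 2 1 0)
        (.all (.all (.imp (fRel 5 3 1) (.imp (fRel 5 2 0) (fSmulF (R0.sh 7) 4 1 0))))))))))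
        (scons (tN S D q₁ T) (scons (xN S) (vR (RP P))))) ?_
    intro c
    have h1 : Fc (RP.j q₁) (fun U => ∀ m, U.E m (U.cls (xN S)) → ∀ h, U.E h (U.cls (xN S)) →
        SmulF U.E (RM U) (U.cls (rn (RP P) c)) m h → ∀ f' h', Rel U.E (U.cls (tN S D q₁ T)) m f' →
          Rel U.E (U.cls (tN S D q₁ T)) h h' → SmulF U.E (RM U) (U.cls (rn (RP P) c)) f' h') := by
      refine all_xD hS hD hq (Φ := fun U m => ∀ h, U.E h (U.cls (xN S)) →
        SmulF U.E (RM U) (U.cls (rn (RP P) c)) m h → ∀ f' h', Rel U.E (U.cls (tN S D q₁ T)) m f' →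
          Rel U.E (U.cls (tN S D q₁ T)) h h' → SmulF U.E (RM U) (U.cls (rn (RP P) c)) f' h')
        (Df1.of_sat (.all (.imp (.mem 0 3) (.imp (fSmulF (R0.sh 5) 4 1 0)
          (.all (.all (.imp (fRel 4 3 1) (.imp (fRel 4 2 0) (fSmulF (R0.sh 7) 6 1 0))))))))
          (scons (tN S D q₁ T) (scons (xN S) (scons (rn (RP P) c) (vR (RP P)))))) ?_
      intro r hr hrq x hx
      have h2 : Fc (RP.j r) (fun U => ∀ m, U.E m (U.cls (xN S)) →
          SmulF U.E (RM U) (U.cls (rn (RP P) c)) (U.cls (xf P x)) m → ∀ f' h',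
            Rel U.E (U.cls (tN S D q₁ T)) (U.cls (xf P x)) f' →
            Rel U.E (U.cls (tN S D q₁ T)) m h' → SmulF U.E (RM U) (U.cls (rn (RP P) c)) f' h') := by
        refine all_xD hS hD hr (Φ := fun U m =>
          SmulF U.E (RM U) (U.cls (rn (RP P) c)) (U.cls (xf P x)) m → ∀ f' h',
            Rel U.E (U.cls (tN S D q₁ T)) (U.cls (xf P x)) f' →
            Rel U.E (U.cls (tN S D q₁ T)) m h' → SmulF U.E (RM U) (U.cls (rn (RP P) c)) f' h')
          (Df1.of_sat (.imp (fSmulF (R0.sh 4) 2 3 0)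
            (.all (.all (.imp (fRel 3 5 1) (.imp (fRel 3 2 0) (fSmulF (R0.sh 6) 4 1 0))))))
            (scons (tN S D q₁ T) (scons (rn (RP P) c) (scons (xf P x) (vR (RP P)))))) ?_
        intro s hs hsr z hz U hU hsm f' h' hf' hh'
        have hsq : s ≤ q₁ := hsr.trans hrq
        have hxs : x ∈ S s := hS.mono _ _ hsr hx
        rw [rel_tN hS hD hT hs hsq hxs U hU] at hf'
        rw [rel_tN hS hD hT hs hsq hz U hU] at hh'
        rw [hf', hh', smulF_fnm]
        rw [smulF_fnm] at hsm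
        have hz' : z = c • x := BoundedContinuousFunction.ext fun n => (hsm n).symm
        intro n
        rw [hz', hT.smul s hs hsq c x hxs]
        rfl
      exact fun U hU h hh hs' f' h' => h2 U hU h hh hs' f' h'
    exact fun U hU f h hf hh hs' f' h' => h1 U hU f hf h hh hs' f' h'
  exact fun U hU c f h hc hf hh hs' f' h' => h0 U hU c hc f h hf hh hs' f' h'

theorem tN_bij (hS : IsSys S lim) {p₀ q₁ : P} {D : Set P} (hD : IsDom lim p₀ D) (hq : q₁ ∈ D)
    {T : P → (ℕ →ᵇ ℝ) → (ℕ →ᵇ ℝ)} (hT : IsBijFam S D q₁ T) :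
    Fc (RP.j q₁) (fun U => IsLinBij U.E (RM U) (U.cls (xN S)) (U.cls (tN S D q₁ T))) := fun U hU =>
  ⟨tN_fn hS hD hq hT U hU, tN_inj hS hD hq hT U hU, tN_surj hS hD hq hT U hU, tN_add hS hD hq hT U hU,
    tN_smul hS hD hq hT U hU⟩

end Pool.Agent.JO
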