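import Mathlib
import Pool.Agent.Lib.JO.V.RlC
import Pool.Agent.Lib.JO.V.Spc
import Pool.Agent.Lib.JO.V.Cls
import Pool.Agent.Lib.JO.V.Nsp
import Pool.Agent.Lib.JO.V.FamB
import Pool.Agent.Lib.JO.V.FamC
import Pool.Agent.Lib.JO.V.TnB
import Pool.Agent.Lib.MP_11349d_lc.V.Om

/-!
# Part II, module Fin (est. 150 lines): the theorem

PROOFS. `tN_ineq`: `all_xD` for `f` (`Df1.of_sat`, `fIneq` without the first quantifier; the other variables are arbitrary elements of the model): let `x ∈ S r`, `r ∈ D`, `r ≤ q₁`, `U.S (j r)`: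
`g = xf (T r x)` (`rel_tN`); `u = rn (NN ν r x)`, `v = rn (NN ν' r (T r x))` (`NN_spec`; `n` is a function: `IsEqNorm.fn` for `xf x ∈ X`: `Rel ν (xf x) u ↔ u = v₀`); `s = rn (K * NN ν r x)` (`op_mul`); `le_rn` and the inequalities `hI`.
`main_fc`: let `j p ≤ b`, `b` forces that `ν`, `ν'` are norms: `nmF_exists` twice (`Fc.mono`, `NmF.mono`) gives `p₀ ≤ p` and `κ`, `κ'`; `D = DDs S ν ν' p₀`; `isDom_DDs`; `c = min (1 / κ) (1 / κ')`, `C = max κ κ'`; `isFam_NN` twice; `hM` gives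
`q₁`, `T`; `tN_bij`, `tN_ineq` show that `j q₁` forces the conclusion. `q₁ ≤ p₀ ≤ p`.
`negJO_mod`: `R = RM U`, `x = U.cls (xN S)`, `k = U.cls (rn _ K)`: `isOmega_w` (`MP_11349d_lc/V/Om.lean`; `(RM U).w = U.cls (chkAll _ ℕ)` by definition), `isReals_mod`, `x_nonempty`, `x_fn`, `x_add`, `x_smul`, `x_closed`, `x_nonsep`, `rn_mem`. For
`n = U.cls ν`, `n' = U.cls ν'`: let `b` be the Boolean value (`Df0.of_sat`) of the conjunction of the two hypotheses; the conclusion is a `Df0` (`Df0.of_sat` with `.ex (.and (fLinBij ..) (fIneq ..))`); `fc_j_below` and `main_fc`.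
`jo`: `exists_ult (b := ⊤)` (`RP P` is nontrivial: `⊤ ≠ ⊥` because `P` is nonempty, `RP.j_ne_bot`), `U.isZFC`, `negJO_mod`.
-/

set_option autoImplicit false

namespace Pool.Agent.JO

open Pool.Agent.BPF Pool.Agent.Lib.BVM BSet
open scoped BoundedContinuousFunction

variable {P : Type} [Preorder P] {S : P → Submodule ℝ (ℕ →ᵇ ℝ)} {lim : (ℕ → P) → P}

private theorem u_mono {p q : P} (hq : q ≤ p) {U : Ult (RP P)} (hU : U.S (RP.j q)) : U.S (RP.j p) :=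
  Ult.mono U (RP.j_mono hq) hU

private theorem val_eq {ν : BSet (RP P)} {r p₀ : P} {κ : ℝ} (hν : NmF S ν p₀ κ) (hr : r ≤ p₀) {x : ℕ →ᵇ ℝ}
    (hx : x ∈ S r) (hd : ∃ t, Dec ν r x t) {U : Ult (RP P)} (hU : U.S (RP.j r)) {u : U.Mod}
    (hu : Rel U.E (U.cls ν) (U.cls (xf P x)) u) : u = U.cls (rn (RP P) (NN ν r x)) := by
  obtain ⟨v0, -, hv0⟩ := (hν.norm U (u_mono hr hU)).fn.2 (U.cls (xf P x)) (mem_xN hx U hU)
  rw [(hv0 u).1 hu, (hv0 _).1 (NN_spec hd U hU)]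

theorem tN_ineq (hS : IsSys S lim) {p₀ q₁ : P} {D : Set P} (hD : IsDom lim p₀ D) (hq : q₁ ∈ D)
    {T : P → (ℕ →ᵇ ℝ) → (ℕ →ᵇ ℝ)} (hT : IsBijFam S D q₁ T) {ν ν' : BSet (RP P)} {κ κ' K : ℝ}
    (hν : NmF S ν p₀ κ) (hν' : NmF S ν' p₀ κ') (hDD : D ⊆ DDs S ν ν' p₀)
    (hI : ∀ r ∈ D, r ≤ q₁ → ∀ x ∈ S r, NN ν r x ≤ NN ν' r (T r x) ∧ NN ν' r (T r x) ≤ K * NN ν r x) :
    Fc (RP.j q₁) (fun U => Ineq U.E (RM U) (U.cls (xN S)) (U.cls ν) (U.cls ν') (U.cls (rn (RP P) K))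
      (U.cls (tN S D q₁ T))) := by
  have hΦ : Df1 (B := RP P) (fun U m => ∀ g u v s, Rel U.E (U.cls (tN S D q₁ T)) m g →
      Rel U.E (U.cls ν) m u → Rel U.E (U.cls ν') g v → Op U.E (RM U).m (U.cls (rn (RP P) K)) u s →
      Rel U.E (RM U).l u v ∧ Rel U.E (RM U).l v s) :=
    Df1.of_sat (.all (.all (.all (.all (.imp (fRel 5 4 3) (.imp (fRel 6 4 2) (.imp (fRel 7 3 1)
      (.imp (fOp 12 8 2 0) (.and (fRel 13 2 1) (fRel 13 1 0))))))))))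
      (scons (tN S D q₁ T) (scons ν (scons ν' (scons (rn (RP P) K) (vR (RP P))))))
  have key := all_xD hS hD hq hΦ ?_
  · intro U hU f g u v s hf hg hu hv hs
    exact key U hU f hf g u v s hg hu hv hs
  · intro r hr hrq x hx U hU g u v s hg hu hv hs
    have hTx := hT.maps r hr hrq x hx
    have hr0 : r ≤ p₀ := (hDD hr).1
    rw [rel_tN hS hD hT hr hrq hx U hU] at hg
    subst hg
    have e1 := val_eq hν hr0 hx ((hDD hr).2 x hx).1 hU hu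
    have e2 := val_eq hν' hr0 hTx ((hDD hr).2 _ hTx).2 hU hv
    subst e1 e2
    rw [op_mul] at hs
    subst hs
    rw [le_rn, le_rn]
    exact hI r hr hrq x hx

theorem main_fc (hS : IsSys S lim) {K : ℝ} (hM : MainProp S lim K) {ν ν' : BSet (RP P)} {p : P}
    (h : Fc (RP.j p) (fun U => IsEqNorm U.E (RM U) (U.cls (xN S)) (U.cls ν)))
    (h' : Fc (RP.j p) (fun U => IsEqNorm U.E (RM U) (U.cls (xN S)) (U.cls ν'))) :
    ∃ q ≤ p, Fc (RP.j q) (fun U => ∃ t, IsLinBij U.E (RM U) (U.cls (xN S)) t ∧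
      Ineq U.E (RM U) (U.cls (xN S)) (U.cls ν) (U.cls ν') (U.cls (rn (RP P) K)) t) := by
  obtain ⟨p1, hp1, κ, hκ⟩ := nmF_exists h
  obtain ⟨p2, hp2, κ', hκ'⟩ := nmF_exists (fc_j_mono h' hp1)
  have hν : NmF S ν p2 κ := hκ.mono hp2
  have hdom := isDom_DDs hS hν hκ'
  have hD1 : ∀ q ∈ DDs S ν ν' p2, q ≤ p2 ∧ ∀ x ∈ S q, ∃ t, Dec ν q x t := fun q hq =>
    ⟨hq.1, fun x hx => (hq.2 x hx).1⟩
  have hD2 : ∀ q ∈ DDs S ν ν' p2, q ≤ p2 ∧ ∀ x ∈ S q, ∃ t, Dec ν' q x t := fun q hq =>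
    ⟨hq.1, fun x hx => (hq.2 x hx).2⟩
  have hc : 0 < min (1 / κ) (1 / κ') := lt_min (one_div_pos.2 hν.pos) (one_div_pos.2 hκ'.pos)
  obtain ⟨q₁, hq₁, T, hT, hI⟩ := hM p2 _ hdom (min (1 / κ) (1 / κ')) (max κ κ') hc _ _
    (isFam_NN hS hν hD1 (min_le_left _ _) (le_max_left _ _))
    (isFam_NN hS hκ' hD2 (min_le_right _ _) (le_max_right _ _))
  refine ⟨q₁, (hdom.le _ hq₁).trans (hp2.trans hp1), fun U hU => ⟨_, tN_bij hS hdom hq₁ hT U hU, ?_⟩⟩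
  exact tN_ineq hS hdom hq₁ hT hν hκ' (fun _ h => h) hI U hU

theorem negJO_mod (hS : IsSys S lim) {K : ℝ} (hM : MainProp S lim K) (U : Ult (RP P)) : NegJO U.E := by
  refine ⟨RM U, U.cls (xN S), U.cls (rn (RP P) K), isOmega_w U, isReals_mod hS U,
    ⟨x_nonempty U, x_fn hS U, x_add hS U, x_smul hS U, x_closed hS U⟩, x_nonsep hS U, rn_mem U K, ?_⟩
  intro n n' hn hn'
  obtain ⟨ν, rfl⟩ := U.exists_cls n
  obtain ⟨ν', rfl⟩ := U.exists_cls n'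
  obtain ⟨b, hb⟩ : Df0 (B := RP P) (fun U => sat U.E (.and (fEqNorm (R0.sh 3) 0 1) (fEqNorm (R0.sh 3) 0 2))
      (fun i => U.cls (scons (xN S) (scons ν (scons ν' (vR (RP P)))) i))) := Df0.of_sat _ _
  have hc : Df0 (B := RP P) (fun U => ∃ t, IsLinBij U.E (RM U) (U.cls (xN S)) t ∧
      Ineq U.E (RM U) (U.cls (xN S)) (U.cls ν) (U.cls ν') (U.cls (rn (RP P) K)) t) := by
    obtain ⟨c, hc⟩ : Df0 (B := RP P) (fun U => sat U.E (.ex (.and (fLinBij (R0.sh 5) 1 0)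
      (fIneq (R0.sh 5) 1 2 3 4 0)))
      (fun i => U.cls (scons (xN S) (scons ν (scons ν' (scons (rn (RP P) K) (vR (RP P))))) i))) := Df0.of_sat _ _
    refine ⟨c, fun V => (hc V).trans ⟨?_, ?_⟩⟩
    · rintro ⟨t, h1, h2⟩
      exact ⟨t, (sat_fLinBij _ _ _ _ _).1 h1, (sat_fIneq _ _ _ _ _ _ _ _).1 h2⟩
    · rintro ⟨t, h1, h2⟩
      exact ⟨t, (sat_fLinBij _ (R0.sh 5) 1 0 _).2 h1, (sat_fIneq _ (R0.sh 5) 1 2 3 4 0 _).2 h2⟩
  have hU : U.S b := (hb U).2 ⟨(sat_fEqNorm _ (R0.sh 3) 0 1 _).2 hn, (sat_fEqNorm _ (R0.sh 3) 0 2 _).2 hn'⟩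
  have key := fc_j_below (b := b) hc fun p hp => main_fc hS hM (ν := ν) (ν' := ν') (p := p)
    (fun V hV => (sat_fEqNorm _ _ _ _ _).1 ((hb V).1 (Ult.mono V hp hV)).1)
    (fun V hV => (sat_fEqNorm _ _ _ _ _).1 ((hb V).1 (Ult.mono V hp hV)).2)
  exact key U hU

theorem jo {K : ℝ} (h : PartI K) : ∃ (M : Type 1) (E : M → M → Prop), IsZFC E ∧ NegJO E := by
  obtain ⟨P, _, ⟨p⟩, S, lim, hS, hM⟩ := h
  obtain ⟨U, -⟩ := exists_ult (b := (⊤ : RP P)) fun h' =>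
    RP.j_ne_bot p (le_bot_iff.1 (h' ▸ le_top))
  exact ⟨U.Mod, U.E, U.isZFC, negJO_mod hS hM U⟩

end Pool.Agent.JO
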